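import Pool.Agent.RRC.Defs

/-!
# SIG (30 lines). Sets of pairs `(e, i)` = families of sets.
-/

namespace Pool.RRC

open Classical

theorem sum_sigma {E : Type} [Fintype E] {X : E → Type} [∀ e, Fintype (X e)]
    (f : Finset (Σ e, X e) → ℂ) :
    ∑ S : Finset (Σ e, X e), f S = ∑ s : (∀ e, Finset (X e)), f (Finset.univ.sigma s) := by
  symm
  refine Finset.sum_bij' (fun s _ => Finset.univ.sigma s)
    (fun S _ => fun e => Finset.univ.filter (fun i => (⟨e, i⟩ : Σ e, X e) ∈ S)) ?_ ?_ ?_ ?_ ?_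
  · intro s _; exact Finset.mem_univ _
  · intro S _; exact Finset.mem_univ _
  · intro s _
    funext e
    ext i
    simp
  · intro S _
    ext ⟨e, i⟩
    simp
  · intro s _; rfl

theorem prod_sigma' {E : Type} [Fintype E] {X : E → Type} [∀ e, Fintype (X e)]
    (s : ∀ e, Finset (X e)) (w : E → ℂ) :
    ∏ x ∈ Finset.univ.sigma s, w x.1 = ∏ e, w e ^ (s e).card := by
  rw [Finset.prod_sigma]
  simp

end Pool.RRC
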