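import Pool.Agent.RRC.GL
import Pool.Agent.RRC.SIG

/-!
# BUN (60 lines). Parallel edges.

Proof. The relation `(G.bundle k).Rl S` only depends on the first components:
`(G.bundle k).Rl ↑(univ.sigma s) = G.Rl ↑(univ.filter fun e => (s e).Nonempty)` (funext, propext), so
`Comp`, `Conn` and `cc` agree. Now `sum_sigma`, `prod_sigma'`, and `grouping` with
`X e = Finset (Fin (k e))`, `τ e x = x.Nonempty`, `g e x = w e ^ x.card`:
`∑ x, if x.Nonempty then w ^ x.card else 0 = (1 + w) ^ k - 1` and `∑ x, if x.Nonempty then 0 else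
w ^ x.card = 1` (`Finset.sum_pow_mul_eq_add_pow` or `Fintype.sum_pow_mul_eq_add_pow`: the sum of
`w ^ x.card` over all `x : Finset (Fin k)` is `(1 + w) ^ k`; only `x = ∅` is not nonempty).
`bundle_conn_univ`: the relations agree if all `k e ≥ 1`.
-/

namespace Pool.RRC

open Classical

variable {V E : Type} [Fintype E]

private theorem BUN_rel (G : MG V E) (k : E → ℕ) (s : ∀ e, Finset (Fin (k e))) :
    (G.bundle k).Rl (↑(Finset.univ.sigma s) : Set (Σ e, Fin (k e))) =
      G.Rl (↑(Finset.univ.filter fun e => (s e).Nonempty) : Set E) := by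
  funext u v
  apply propext
  constructor
  · rintro ⟨x, hx, h1, h2⟩
    rw [Finset.mem_coe, Finset.mem_sigma] at hx
    refine ⟨x.1, ?_, h1, h2⟩
    rw [Finset.mem_coe, Finset.mem_filter]
    exact ⟨Finset.mem_univ _, ⟨x.2, hx.2⟩⟩
  · rintro ⟨e, he, h1, h2⟩
    rw [Finset.mem_coe, Finset.mem_filter] at he
    obtain ⟨y, hy⟩ := he.2
    refine ⟨⟨e, y⟩, ?_, h1, h2⟩
    rw [Finset.mem_coe, Finset.mem_sigma]
    exact ⟨Finset.mem_univ _, hy⟩

private theorem BUN_conn (G : MG V E) (k : E → ℕ) (s : ∀ e, Finset (Fin (k e))) :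
    (G.bundle k).Conn (↑(Finset.univ.sigma s) : Set (Σ e, Fin (k e))) ↔
      G.Conn (↑(Finset.univ.filter fun e => (s e).Nonempty) : Set E) := by
  unfold MG.Conn MG.Comp
  rw [BUN_rel]

private theorem BUN_cc (G : MG V E) (k : E → ℕ) (s : ∀ e, Finset (Fin (k e))) :
    (G.bundle k).cc (↑(Finset.univ.sigma s) : Set (Σ e, Fin (k e))) =
      G.cc (↑(Finset.univ.filter fun e => (s e).Nonempty) : Set E) := by
  unfold MG.cc MG.Comp
  rw [BUN_rel]

private theorem BUN_zero (n : ℕ) (w : ℂ) (inst : ∀ x : Finset (Fin n), Decidable x.Nonempty) :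
    ∑ x : Finset (Fin n), @ite ℂ x.Nonempty (inst x) 0 (w ^ x.card) = 1 := by
  rw [Finset.sum_eq_single (∅ : Finset (Fin n))]
  · rw [if_neg Finset.not_nonempty_empty, Finset.card_empty, pow_zero]
  · intro b _ hb
    rw [if_pos (Finset.nonempty_iff_ne_empty.2 hb)]
  · intro h
    exact absurd (Finset.mem_univ _) h

private theorem BUN_one (n : ℕ) (w : ℂ) (inst : ∀ x : Finset (Fin n), Decidable x.Nonempty) :
    ∑ x : Finset (Fin n), @ite ℂ x.Nonempty (inst x) (w ^ x.card) 0 = (1 + w) ^ n - 1 := by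
  have h1 : ∑ x : Finset (Fin n), w ^ x.card = (1 + w) ^ n := by
    have h := Fintype.sum_pow_mul_eq_add_pow (Fin n) w 1
    simp only [one_pow, mul_one, Fintype.card_fin] at h
    rw [h, add_comm]
  have h2 := BUN_zero n w inst
  rw [← h1, ← h2, ← Finset.sum_sub_distrib]
  apply Finset.sum_congr rfl
  intro x _
  split_ifs <;> ring

private theorem BUN_main (k : E → ℕ) (w : E → ℂ) (F : Finset E → ℂ) :
    ∑ s : (∀ e, Finset (Fin (k e))), F (Finset.univ.filter fun e => (s e).Nonempty) *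
      ∏ e, w e ^ (s e).card = ∑ H : Finset E, F H * ∏ e ∈ H, ((1 + w e) ^ k e - 1) := by
  have h := grouping (X := fun e => Finset (Fin (k e))) (fun e x => x.Nonempty) F
    (fun e x => w e ^ x.card)
  have h1 : ∀ H : Finset E, F H * ((∏ e ∈ H, ∑ x : Finset (Fin (k e)),
      if x.Nonempty then w e ^ x.card else 0) *
        ∏ e ∈ Hᶜ, ∑ x : Finset (Fin (k e)), if x.Nonempty then 0 else w e ^ x.card) =
      F H * ∏ e ∈ H, ((1 + w e) ^ k e - 1) := by
    intro H
    rw [Finset.prod_congr rfl (fun e _ => BUN_one (k e) (w e) _),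
      Finset.prod_congr (s₁ := Hᶜ) rfl (fun e _ => BUN_zero (k e) (w e) _), Finset.prod_const_one,
      mul_one]
  rw [← Finset.sum_congr rfl (fun H _ => h1 H)]
  convert h using 3
  · congr!
  · congr!

theorem R_bundle (G : MG V E) (k : E → ℕ) (w : E → ℂ) :
    (G.bundle k).R (fun x => w x.1) = G.R (fun e => (1 + w e) ^ k e - 1) := by
  have h := BUN_main k w (fun H => if G.Conn (H : Set E) then 1 else 0)
  unfold MG.R
  rw [sum_sigma]
  have h1 : ∀ s : (∀ e, Finset (Fin (k e))),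
      (if (G.bundle k).Conn (↑(Finset.univ.sigma s) : Set (Σ e, Fin (k e))) then
        ∏ x ∈ Finset.univ.sigma s, w x.1 else 0) =
      (if G.Conn (↑(Finset.univ.filter fun e => (s e).Nonempty) : Set E) then 1 else 0) *
        ∏ e, w e ^ (s e).card := by
    intro s
    rw [prod_sigma']
    by_cases hc : G.Conn (↑(Finset.univ.filter fun e => (s e).Nonempty) : Set E)
    · rw [if_pos hc, if_pos ((BUN_conn G k s).2 hc), one_mul]
    · rw [if_neg hc, if_neg (fun h' => hc ((BUN_conn G k s).1 h')), zero_mul]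
  rw [Finset.sum_congr rfl (fun s _ => h1 s)]
  rw [h]
  apply Finset.sum_congr rfl
  intro H _
  split_ifs
  · rw [one_mul]
  · rw [zero_mul]

theorem Z_bundle (G : MG V E) (k : E → ℕ) (w : E → ℂ) :
    (G.bundle k).Z (fun x => w x.1) = G.Z (fun e => (1 + w e) ^ k e - 1) := by
  have h := BUN_main k w (fun H => (-1) ^ G.cc (H : Set E))
  unfold MG.Z
  rw [sum_sigma]
  rw [Finset.sum_congr rfl (fun s _ => by rw [prod_sigma', BUN_cc])]
  exact h

omit [Fintype E] in
theorem bundle_conn_univ (G : MG V E) (k : E → ℕ) (hk : ∀ e, 1 ≤ k e) :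
    (G.bundle k).Conn Set.univ ↔ G.Conn Set.univ := by
  have h : (G.bundle k).Rl Set.univ = G.Rl Set.univ := by
    funext u v
    apply propext
    constructor
    · rintro ⟨x, _, h1, h2⟩
      exact ⟨x.1, Set.mem_univ _, h1, h2⟩
    · rintro ⟨e, _, h1, h2⟩
      exact ⟨⟨e, ⟨0, hk e⟩⟩, Set.mem_univ _, h1, h2⟩
  unfold MG.Conn MG.Comp
  rw [h]

end Pool.RRC
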