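import Pool.Agent.RRC.Defs

/-!
# CNN (35 lines). Connectedness of the Mathlib simple graph = at most one class of the quotient.

Proof. `V` nonempty on both sides (`SimpleGraph.Connected.nonempty`).
Left to right: `f v := G.cl S v`; if `u, v` are adjacent in `sub G.ends S = fromEdgeSet (ends '' S)`
then there is `e ∈ S` with `s(src e, tgt e) = s(u, v)`, so `G.cl S u = G.cl S v` (`Quot.sound`, in one
of the two directions); by induction on walks (`SimpleGraph.Reachable`) all `G.cl S v` are equal, hence
`G.Comp S` is a subsingleton (`Quot.ind`).
Right to left: the relation `Reachable` of `sub G.ends S` contains `G.Rl S` (if `src e = tgt e`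
it is `Reachable.refl`, otherwise adjacency), so `Quot.lift` of `v ↦ (sub G.ends S).connectedComponentMk v`
is well defined on `G.Comp S`, and `Subsingleton` gives equality of all components.
-/

namespace Pool.RRC

theorem conn_iff {V E : Type} (G : MG V E) (S : Set E) :
    (sub G.ends S).Connected ↔ Nonempty V ∧ G.Conn S := by
  constructor
  · intro h
    refine ⟨h.nonempty, ⟨?_⟩⟩
    have hadj : ∀ u v, (sub G.ends S).Adj u v → G.cl S u = G.cl S v := by
      intro u v huv
      unfold sub at huv
      rw [SimpleGraph.fromEdgeSet_adj] at huv
      obtain ⟨⟨e, he, heq⟩, -⟩ := huv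
      unfold MG.ends at heq
      rw [Sym2.eq_iff] at heq
      rcases heq with ⟨h1, h2⟩ | ⟨h1, h2⟩
      · exact Quot.sound ⟨e, he, h1, h2⟩
      · exact (Quot.sound ⟨e, he, h1, h2⟩).symm
    have hw : ∀ u v, (sub G.ends S).Reachable u v → G.cl S u = G.cl S v := by
      intro u v huv
      obtain ⟨p⟩ := huv
      induction p with
      | nil => rfl
      | cons hh _ ih => exact (hadj _ _ hh).trans ih
    intro a b
    induction a using Quot.ind with
    | mk a =>
      induction b using Quot.ind with
      | mk b => exact hw a b (h.preconnected a b)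
  · rintro ⟨hne, hc⟩
    have hr : ∀ u v, G.Rl S u v →
        (sub G.ends S).connectedComponentMk u = (sub G.ends S).connectedComponentMk v := by
      rintro u v ⟨e, he, h1, h2⟩
      rw [SimpleGraph.ConnectedComponent.eq]
      by_cases huv : u = v
      · rw [huv]
      · refine SimpleGraph.Adj.reachable ?_
        unfold sub
        rw [SimpleGraph.fromEdgeSet_adj]
        refine ⟨⟨e, he, ?_⟩, huv⟩
        unfold MG.ends
        rw [h1, h2]
    refine ⟨?_⟩
    intro u v
    have h1 : G.cl S u = G.cl S v := hc.elim _ _
    have h2 := congrArg (Quot.lift (fun v => (sub G.ends S).connectedComponentMk v) hr) h1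
    exact SimpleGraph.ConnectedComponent.exact h2

end Pool.RRC
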