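import Pool.Agent.RRC.INC

/-!
# CONE (80 lines). The connected sum of the cone with hub weights `-1` is the Potts sum `Z`.

Proof. `conn_cone`: for `H : Finset E`, `T : Finset V` (use `Finset.disjSum H T : Finset (E ⊕ V)`),
`G.cone.Conn ↑(H.disjSum T) ↔ ∀ c : G.Comp ↑H, ∃ v ∈ T, G.cl ↑H v = c`.
Left to right: the function `f : Option V → Prop`, `f none = True`,
`f (some v) = ∃ w ∈ T, G.cl H w = G.cl H v` respects the relation, so it descends to `G.cone.Comp _`
(`Quot.lift`); by `Subsingleton`, `f (some v) = f none = True`.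
Right to left: for `v` pick `w ∈ T` with `cl w = cl v`; the map `cl v ↦ cl (some v)` from
`G.Comp H` to `G.cone.Comp _` is well defined, so `cl (some v) = cl (some w) = cl none`.
`R_cone`: sum over `Finset (E ⊕ V)` = sum over pairs (`Finset.sumEquiv`, `Fintype.sum_equiv`,
`Fintype.sum_prod_type`), product over `disjSum` (`Finset.prod_disjSum`), the hub part is
`(-1) ^ T.card`; then `alt_sum` with `p = G.cl ↑H` (`G.Comp ↑H` is finite as a quotient of `V`;
`Nat.card_eq_fintype_card`).
`cone_conn_univ`: every vertex is joined to the hub.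
-/

namespace Pool.RRC

open Classical

variable {V E : Type}

theorem conn_cone (G : MG V E) (H : Finset E) (T : Finset V) :
    G.cone.Conn (↑(H.disjSum T) : Set (E ⊕ V)) ↔
      ∀ c : G.Comp (H : Set E), ∃ v ∈ T, G.cl (H : Set E) v = c := by
  constructor
  · intro hs c
    have hs' : Subsingleton (G.cone.Comp (↑(H.disjSum T) : Set (E ⊕ V))) := hs
    obtain ⟨v, rfl⟩ : ∃ v, G.cl (H : Set E) v = c := Quot.exists_rep c
    let f : Option V → Prop := fun o => Option.elim o True
      (fun v => ∃ w ∈ T, G.cl (H : Set E) w = G.cl (H : Set E) v)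
    have hf : ∀ a b, G.cone.Rl (↑(H.disjSum T) : Set (E ⊕ V)) a b → f a = f b := by
      rintro a b ⟨x, hx, h1, h2⟩
      rw [Finset.mem_coe] at hx
      rcases x with e | u
      · rw [Finset.inl_mem_disjSum] at hx
        have h1' : some (G.src e) = a := h1
        have h2' : some (G.tgt e) = b := h2
        rw [← h1', ← h2']
        have h3 : G.cl (H : Set E) (G.src e) = G.cl (H : Set E) (G.tgt e) :=
          Quot.sound ⟨e, hx, rfl, rfl⟩
        show (∃ w ∈ T, G.cl (H : Set E) w = G.cl (H : Set E) (G.src e)) =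
          (∃ w ∈ T, G.cl (H : Set E) w = G.cl (H : Set E) (G.tgt e))
        rw [h3]
      · rw [Finset.inr_mem_disjSum] at hx
        have h1' : none = a := h1
        have h2' : some u = b := h2
        rw [← h1', ← h2']
        apply propext
        exact ⟨fun _ => ⟨u, hx, rfl⟩, fun _ => trivial⟩
    have h4 : Quot.lift f hf (G.cone.cl (↑(H.disjSum T) : Set (E ⊕ V)) (some v)) =
        Quot.lift f hf (G.cone.cl (↑(H.disjSum T) : Set (E ⊕ V)) none) := by
      rw [Subsingleton.elim (G.cone.cl (↑(H.disjSum T) : Set (E ⊕ V)) (some v))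
        (G.cone.cl (↑(H.disjSum T) : Set (E ⊕ V)) none)]
    have h5 : f (some v) = f none := h4
    have h6 : f (some v) := by rw [h5]; exact trivial
    exact h6
  · intro h
    have hg : ∀ a b, G.Rl (H : Set E) a b →
        G.cone.cl (↑(H.disjSum T) : Set (E ⊕ V)) (some a) =
          G.cone.cl (↑(H.disjSum T) : Set (E ⊕ V)) (some b) := by
      rintro a b ⟨e, he, h1, h2⟩
      apply Quot.sound
      refine ⟨Sum.inl e, ?_, ?_, ?_⟩
      · rw [Finset.mem_coe, Finset.inl_mem_disjSum]
        exact he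
      · show some (G.src e) = some a
        rw [h1]
      · show some (G.tgt e) = some b
        rw [h2]
    have h0 : ∀ o : Option V, G.cone.cl (↑(H.disjSum T) : Set (E ⊕ V)) o =
        G.cone.cl (↑(H.disjSum T) : Set (E ⊕ V)) none := by
      intro o
      rcases o with _ | v
      · rfl
      · obtain ⟨w, hw, h1⟩ := h (G.cl (H : Set E) v)
        have h2 := congrArg (Quot.lift (fun a => G.cone.cl (↑(H.disjSum T) : Set (E ⊕ V)) (some a))
          hg) h1
        have h3 : G.cone.cl (↑(H.disjSum T) : Set (E ⊕ V)) (some w) =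
          G.cone.cl (↑(H.disjSum T) : Set (E ⊕ V)) (some v) := h2
        rw [← h3]
        symm
        apply Quot.sound
        refine ⟨Sum.inr w, ?_, rfl, rfl⟩
        rw [Finset.mem_coe, Finset.inr_mem_disjSum]
        exact hw
    refine ⟨fun a b => ?_⟩
    obtain ⟨a, rfl⟩ := Quot.exists_rep a
    obtain ⟨b, rfl⟩ := Quot.exists_rep b
    exact (h0 a).trans (h0 b).symm

theorem R_cone [Fintype V] [Fintype E] (G : MG V E) (w : E → ℂ) :
    G.cone.R (Sum.elim w (fun _ => -1)) = G.Z w := by
  unfold MG.R MG.Z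
  have h1 : ∀ S : Finset (E ⊕ V), (if G.cone.Conn (S : Set (E ⊕ V)) then
      ∏ x ∈ S, Sum.elim w (fun _ => -1) x else 0) =
      (fun p : Finset E × Finset V => if ∀ c : G.Comp (p.1 : Set E), ∃ v ∈ p.2,
        G.cl (p.1 : Set E) v = c then (∏ e ∈ p.1, w e) * (-1) ^ p.2.card else 0)
        (Finset.sumEquiv S) := by
    intro S
    have h2 : S = (Finset.sumEquiv S).1.disjSum (Finset.sumEquiv S).2 :=
      (Finset.sumEquiv.symm_apply_apply S).symm
    have h3 := conn_cone G (Finset.sumEquiv S).1 (Finset.sumEquiv S).2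
    rw [← h2] at h3
    have h4 : ∏ x ∈ S, Sum.elim w (fun _ => (-1 : ℂ)) x =
        (∏ e ∈ (Finset.sumEquiv S).1, w e) * (-1) ^ (Finset.sumEquiv S).2.card := by
      conv_lhs => rw [h2]
      rw [Finset.prod_disjSum]
      simp
    rw [h4]
    by_cases hc : G.cone.Conn (S : Set (E ⊕ V))
    · rw [if_pos hc]
      simp only []
      rw [if_pos (h3.1 hc)]
    · rw [if_neg hc]
      simp only []
      rw [if_neg (fun h' => hc (h3.2 h'))]
  rw [Finset.sum_congr rfl (fun S _ => h1 S)]
  refine (Equiv.sum_comp (Finset.sumEquiv (α := E) (β := V)).toEquiv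
    (fun p : Finset E × Finset V => if ∀ c : G.Comp (p.1 : Set E), ∃ v ∈ p.2,
        G.cl (p.1 : Set E) v = c then (∏ e ∈ p.1, w e) * (-1) ^ p.2.card else 0)).trans ?_
  rw [Fintype.sum_prod_type]
  apply Finset.sum_congr rfl
  intro H _
  have hfin : Finite (G.Comp (H : Set E)) :=
    Finite.of_surjective (G.cl (H : Set E)) Quot.exists_rep
  have hft : Fintype (G.Comp (H : Set E)) := Fintype.ofFinite _
  have h5 := alt_sum (G.cl (H : Set E)) Quot.exists_rep
  have h6 : G.cc (H : Set E) = Fintype.card (G.Comp (H : Set E)) := Nat.card_eq_fintype_card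
  rw [h6, ← h5, Finset.sum_mul]
  apply Finset.sum_congr rfl
  intro T _
  simp only []
  split_ifs
  · ring
  · ring

theorem cone_conn_univ (G : MG V E) : G.cone.Conn Set.univ := by
  have h0 : ∀ o : Option V, G.cone.cl Set.univ o = G.cone.cl Set.univ none := by
    intro o
    rcases o with _ | v
    · rfl
    · symm
      apply Quot.sound
      exact ⟨Sum.inr v, Set.mem_univ _, rfl, rfl⟩
  refine ⟨fun a b => ?_⟩
  obtain ⟨a, rfl⟩ := Quot.exists_rep a
  obtain ⟨b, rfl⟩ := Quot.exists_rep b
  exact (h0 a).trans (h0 b).symm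

end Pool.RRC
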