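import Mathlib

/-!
# Reliability roots: definitions (problem MP_e16971_co)
-/

namespace Pool.RRC

open Classical

/-! ### The objects of the final statement -/

/-- The simple graph on `V` whose edges are the end pairs of the edges in `S`, for a multigraph with
edge type `E` in which the edge `e` has the unordered pair of end vertices `ends e`. -/
def sub {V E : Type} (ends : E → Sym2 V) (S : Set E) : SimpleGraph V :=
  SimpleGraph.fromEdgeSet (ends '' S)

/-- All-terminal reliability of a multigraph: every edge fails independently with probability `q`;
sum over all sets `S` of surviving edges which form a connected spanning subgraph. -/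
noncomputable def relPoly {V E : Type} [Fintype E] (ends : E → Sym2 V) (q : ℂ) : ℂ :=
  ∑ S : Finset E, if (sub ends (S : Set E)).Connected then
    (1 - q) ^ S.card * q ^ (Fintype.card E - S.card) else 0

/-- All-terminal reliability of a simple graph. -/
noncomputable def relSimple {V : Type} [Fintype V] (G : SimpleGraph V) (q : ℂ) : ℂ :=
  ∑ S ∈ G.edgeFinset.powerset, if (SimpleGraph.fromEdgeSet (S : Set (Sym2 V))).Connected then
    (1 - q) ^ S.card * q ^ (G.edgeFinset.card - S.card) else 0

/-- Roots of the reliability polynomials of connected finite simple graphs. -/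
def Zsimple : Set ℂ :=
  {q | ∃ (V : Type) (_ : Fintype V) (G : SimpleGraph V), G.Connected ∧ relSimple G q = 0}

/-- Roots of the reliability polynomials of connected finite loopless multigraphs. -/
def Zmulti : Set ℂ :=
  {q | ∃ (V E : Type) (_ : Fintype V) (_ : Fintype E) (ends : E → Sym2 V),
    (∀ e, ¬ (ends e).IsDiag) ∧ (sub ends Set.univ).Connected ∧ relPoly ends q = 0}

/-- Roots of the reliability polynomials of connected finite multigraphs, loops allowed. -/
def ZmultiLoops : Set ℂ :=
  {q | ∃ (V E : Type) (_ : Fintype V) (_ : Fintype E) (ends : E → Sym2 V),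
    (sub ends Set.univ).Connected ∧ relPoly ends q = 0}

/-! ### Internal: oriented multigraphs -/

/-- Oriented multigraph: edge `e` joins `src e` and `tgt e`. -/
structure MG (V E : Type) where
  src : E → V
  tgt : E → V

namespace MG

variable {V E : Type} (G : MG V E)

/-- unordered pair of ends -/
def ends (e : E) : Sym2 V := s(G.src e, G.tgt e)

/-- `u` and `v` are joined by an edge of `S` (oriented from `u` to `v`). -/
def Rl (S : Set E) (u v : V) : Prop := ∃ e ∈ S, G.src e = u ∧ G.tgt e = v

/-- The set of components of the graph `(V, S)`. -/
def Comp (S : Set E) : Type := Quot (G.Rl S)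

/-- component of a vertex -/
def cl (S : Set E) (v : V) : G.Comp S := Quot.mk _ v

/-- number of components -/
noncomputable def cc (S : Set E) : ℕ := Nat.card (G.Comp S)

/-- `(V, S)` has at most one component (connected, if `V` is nonempty). -/
def Conn (S : Set E) : Prop := Subsingleton (G.Comp S)

/-- weighted sum over connected edge sets -/
noncomputable def R [Fintype E] (w : E → ℂ) : ℂ :=
  ∑ S : Finset E, if G.Conn (S : Set E) then ∏ e ∈ S, w e else 0

/-- weighted sum over all edge sets, with `(-1)` to the number of components
(Potts model with `-1` states) -/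
noncomputable def Z [Fintype E] (w : E → ℂ) : ℂ :=
  ∑ S : Finset E, (-1) ^ G.cc (S : Set E) * ∏ e ∈ S, w e

/-- replace the edge `e` by `k e` parallel edges -/
def bundle (k : E → ℕ) : MG V (Σ e, Fin (k e)) where
  src x := G.src x.1
  tgt x := G.tgt x.1

/-- subdivide every edge once: the new vertex of the edge `e` is `Sum.inr e` -/
def subdiv : MG (V ⊕ E) (Σ _ : E, Bool) where
  src x := Sum.inl (if x.2 then G.tgt x.1 else G.src x.1)
  tgt x := Sum.inr x.1

/-- add a new vertex `none` joined to all vertices -/
def cone : MG (Option V) (E ⊕ V) where
  src := Sum.elim (fun e => some (G.src e)) (fun _ => none)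
  tgt := Sum.elim (fun e => some (G.tgt e)) some

end MG

/-- `u ∈ U` if `R(G; u - 1) = 0` for a connected finite loopless multigraph `G`
(so for `u ≠ 0` it means that `1 / u` is a reliability root). -/
def U : Set ℂ :=
  {u | ∃ (V E : Type) (_ : Fintype V) (_ : Fintype E) (_ : Nonempty V) (G : MG V E),
    (∀ e, G.src e ≠ G.tgt e) ∧ G.Conn Set.univ ∧ G.R (fun _ => u - 1) = 0}

end Pool.RRC
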