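import Pool.Agent.RRC.DEN
import Pool.Agent.RRC.SIM

/-!
# FIN (60 lines). Closures.

Proof. `dense_multi`: `dense_U` and `mem_Zmulti`. `dense_simple`: for `p ≠ 0`, `p ≠ -1` put `Q = 2p/(1+p)`, so that
`(1 + p⁻¹)/2 = Q⁻¹`. By `dense_U` there are `Q_n → Q` with `Q_n ≠ 0`, `Q_n⁻¹ ∈ U`; the inverse map
`p_n = Q_n/(2 - Q_n)` is continuous at `Q ≠ 2`, `p_n → p`, `p_n ≠ 0`, and `(1 + p_n⁻¹)/2 = Q_n⁻¹ ∈ U`, so
`p_n ∈ Zsimple`. The complement of the two points `0, -1` is dense.
Neat way: `Dense.preimage`/`IsOpen` arguments, or with neighbourhoods: for an open set `O ∋ p`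
the set `{Q | Q ≠ 2 ∧ Q/(2-Q) ∈ O}` is a neighbourhood of `2p/(1+p)`.
`not_bounded`: a bounded set has bounded closure (`Bornology.IsBounded.closure`), and `ℂ` is not bounded
(`NoncompactSpace`).
-/

namespace Pool.RRC

theorem dense_multi : Dense Zmulti := by
  refine dense_U.mono ?_
  rintro q ⟨hq, hU⟩
  exact mem_Zmulti q hq hU

theorem dense_simple : Dense Zsimple := by
  have h0 : Dense (({0, -1} : Set ℂ)ᶜ) := by
    have := (dense_univ (X := ℂ)).diff_finite (Set.toFinite ({0, -1} : Set ℂ))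
    rwa [← Set.compl_eq_univ_diff] at this
  rw [dense_iff_inter_open]
  intro O hO hne
  obtain ⟨p, hpO, hp⟩ := h0.inter_open_nonempty O hO hne
  have hp0 : p ≠ 0 := by
    intro h; apply hp; simp [h]
  have hp1 : 1 + p ≠ 0 := by
    intro h; apply hp
    have : p = -1 := by linear_combination h
    simp [this]
  set Q : ℂ := 2 * p / (1 + p) with hQ
  have hQ2 : (2 : ℂ) - Q ≠ 0 := by
    have : (2 : ℂ) - Q = 2 / (1 + p) := by
      rw [hQ]; field_simp; ring
    rw [this]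
    exact div_ne_zero two_ne_zero hp1
  have hfQ : Q / (2 - Q) = p := by
    have h2 : (2 : ℂ) - Q = 2 / (1 + p) := by
      rw [hQ]; field_simp; ring
    rw [h2, hQ]; field_simp
  have hcont : ContinuousAt (fun Q : ℂ => Q / (2 - Q)) Q :=
    ContinuousAt.div continuousAt_id (continuousAt_const.sub continuousAt_id) hQ2
  have hnb : ∀ᶠ q in nhds Q, q / (2 - q) ∈ O ∧ q ≠ 2 := by
    refine (hcont.eventually_mem (by rw [hfQ]; exact hO.mem_nhds hpO)).and ?_
    apply IsOpen.mem_nhds isOpen_ne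
    intro h; apply hQ2; rw [h]; ring
  obtain ⟨W, hW, hWo, hQW⟩ := eventually_nhds_iff.1 hnb
  obtain ⟨q, hqW, hq0, hqU⟩ := dense_U.inter_open_nonempty W hWo ⟨Q, hQW⟩
  obtain ⟨h1, h2⟩ := hW q hqW
  refine ⟨q / (2 - q), h1, ?_⟩
  have h3 : (2 : ℂ) - q ≠ 0 := fun h => h2 (by linear_combination -h)
  apply mem_Zsimple _ (div_ne_zero hq0 h3)
  have : (1 + (q / (2 - q))⁻¹) / 2 = q⁻¹ := by
    rw [inv_div]; field_simp; ring
  rw [this]; exact hqU

theorem not_bounded (A : Set ℂ) (h : Dense A) : ¬ Bornology.IsBounded A := by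
  intro hb
  have h1 : Bornology.IsBounded (closure A) := hb.closure
  rw [h.closure_eq] at h1
  exact NoncompactSpace.noncompact_univ (X := ℂ)
    (Metric.isCompact_of_isClosed_isBounded isClosed_univ h1)

end Pool.RRC
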