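import Pool.Agent.RRC.Defs

/-!
# GL (40 lines). Grouping lemma for sums over functions.

Proof. In the right side write `(∏ e ∈ H, A e) * ∏ e ∈ Hᶜ, B e = ∏ e, if e ∈ H then A e else B e`
(`Finset.prod_ite`, or `Finset.prod_mul_prod_compl`) `= ∏ e, ∑ x, if (τ e x ↔ e ∈ H) then g e x else 0`
`= ∑ s, ∏ e, (if (τ e (s e) ↔ e ∈ H) then g e (s e) else 0)` (`Finset.prod_univ_sum`,
`Fintype.piFinset_univ`), and the product is `∏ e, g e (s e)` if `H = univ.filter (fun e => τ e (s e))`
and `0` otherwise. Exchange the sums (`Finset.sum_comm`) and use `Finset.sum_ite_eq`.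
-/

namespace Pool.RRC

open Classical

theorem grouping {E : Type} [Fintype E] {X : E → Type} [∀ e, Fintype (X e)]
    (τ : ∀ e, X e → Prop) (F : Finset E → ℂ) (g : ∀ e, X e → ℂ) :
    ∑ s : (∀ e, X e), F (Finset.univ.filter fun e => τ e (s e)) * ∏ e, g e (s e) =
      ∑ H : Finset E, F H * ((∏ e ∈ H, ∑ x : X e, if τ e x then g e x else 0) *
        ∏ e ∈ Hᶜ, ∑ x : X e, if τ e x then 0 else g e x) := by
  have key : ∀ H : Finset E, ((∏ e ∈ H, ∑ x : X e, if τ e x then g e x else 0) *
        ∏ e ∈ Hᶜ, ∑ x : X e, if τ e x then 0 else g e x) =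
      ∑ s : (∀ e, X e), if (Finset.univ.filter fun e => τ e (s e)) = H then ∏ e, g e (s e)
        else 0 := by
    intro H
    have h1 : ((∏ e ∈ H, ∑ x : X e, if τ e x then g e x else 0) *
        ∏ e ∈ Hᶜ, ∑ x : X e, if τ e x then 0 else g e x) =
        ∏ e, ∑ x : X e, if (τ e x ↔ e ∈ H) then g e x else 0 := by
      rw [← Finset.prod_mul_prod_compl H (fun e => ∑ x : X e, if (τ e x ↔ e ∈ H) then g e x else 0)]
      congr 1
      · refine Finset.prod_congr rfl fun e he => Finset.sum_congr rfl fun x _ => ?_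
        simp [he]
      · refine Finset.prod_congr rfl fun e he => Finset.sum_congr rfl fun x _ => ?_
        have he' : e ∉ H := Finset.mem_compl.1 he
        by_cases hx : τ e x <;> simp [he', hx]
    rw [h1, Finset.prod_univ_sum, Fintype.piFinset_univ]
    refine Finset.sum_congr rfl fun s _ => ?_
    by_cases hs : (Finset.univ.filter fun e => τ e (s e)) = H
    · rw [if_pos hs]
      refine Finset.prod_congr rfl fun e _ => ?_
      rw [if_pos]
      rw [← hs]; simp
    · rw [if_neg hs]
      have : ∃ e, ¬ (τ e (s e) ↔ e ∈ H) := by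
        by_contra hcon
        push Not at hcon
        apply hs
        ext e
        simp [hcon e]
      obtain ⟨e, he⟩ := this
      exact Finset.prod_eq_zero (Finset.mem_univ e) (if_neg he)
  have h2 : ∀ H : Finset E, F H * ((∏ e ∈ H, ∑ x : X e, if τ e x then g e x else 0) *
        ∏ e ∈ Hᶜ, ∑ x : X e, if τ e x then 0 else g e x) =
      ∑ s : (∀ e, X e), if (Finset.univ.filter fun e => τ e (s e)) = H then
        F H * ∏ e, g e (s e) else 0 := by
    intro H
    rw [key H, Finset.mul_sum]
    refine Finset.sum_congr rfl fun s _ => ?_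
    rw [mul_ite, mul_zero]
  rw [Finset.sum_congr rfl fun H _ => h2 H, Finset.sum_comm]
  refine Finset.sum_congr rfl fun s _ => ?_
  rw [Finset.sum_ite_eq]
  simp

end Pool.RRC
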