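import Pool.Agent.RRC.Defs

/-!
# HUR. Hurwitz' theorem for `P(a^M, a)`-type families.

Let `P : ℂ → ℂ → ℂ` be continuous in both variables and holomorphic along the curves used below. If
`g z = P 0 (exp (-z))` vanishes at `v` with `Re v > 0` and is not locally zero at `v`, then for every
`δ > 0` there is `M ≥ 1` and `z` with `‖z - v‖ < δ` and `P (exp (-(M * z))) (exp (-z)) = 0`.

Proof (70 lines). `F M z = P (exp (-((M + 1) * z))) (exp (-z))` converges uniformly on `closedBall v r`, `r < Re v`,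
to `g`: `P` is uniformly continuous on the compact set `closedBall 0 1 ×ˢ closedBall 0 1`, the points
`(exp (-((M+1) z)), exp (-z))` and `(0, exp (-z))` lie in it and
`‖exp (-((M+1) z))‖ = exp (-(M+1) Re z) ≤ exp (-(M+1) (Re v - r)) → 0`. Then Hurwitz: a complete proof is
in `Pool/Agent/ELL/Hur.lean`, theorem `hurwitz` (copy it as a private lemma into this file;
it only uses Mathlib).
-/

namespace Pool.RRC

open Filter Metric Set Topology

private theorem hurwitz {F : ℕ → ℂ → ℂ} {f : ℂ → ℂ} {x : ℂ} {r : ℝ} (hr : 0 < r)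
    (hF : ∀ᶠ k in atTop, DifferentiableOn ℂ (F k) (ball x r))
    (hf : DifferentiableOn ℂ f (ball x r)) (hconv : TendstoUniformlyOn F f atTop (ball x r))
    (h0 : f x = 0) (hne : ¬ ∀ᶠ ζ in 𝓝 x, f ζ = 0) :
    ∀ δ > 0, ∀ᶠ k in atTop, ∃ ζ ∈ ball x δ, F k ζ = 0 := by
  intro δ hδ
  have hana : AnalyticAt ℂ f x :=
    hf.analyticAt (isOpen_ball.mem_nhds (mem_ball_self hr))
  have hpunct : ∀ᶠ z in 𝓝[≠] x, f z ≠ 0 := by
    rcases hana.eventually_eq_zero_or_eventually_ne_zero with h | h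
    · exact absurd h hne
    · exact h
  rw [eventually_nhdsWithin_iff, Metric.eventually_nhds_iff] at hpunct
  obtain ⟨s₀, hs₀, hs₀'⟩ := hpunct
  -- the radius
  obtain ⟨s, hs, hsr, hsδ, hss₀⟩ : ∃ s > 0, s < r ∧ s < δ ∧ s < s₀ :=
    ⟨min (min (r / 2) (δ / 2)) (s₀ / 2), by positivity,
      lt_of_le_of_lt ((min_le_left _ _).trans (min_le_left _ _)) (by linarith),
      lt_of_le_of_lt ((min_le_left _ _).trans (min_le_right _ _)) (by linarith),
      lt_of_le_of_lt (min_le_right _ _) (by linarith)⟩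
  have hcb : closedBall x s ⊆ ball x r := closedBall_subset_ball hsr
  have hsph : sphere x s ⊆ closedBall x s := sphere_subset_closedBall
  have hfne : ∀ z ∈ sphere x s, f z ≠ 0 := by
    intro z hz
    rw [mem_sphere] at hz
    refine hs₀' (by rw [hz]; exact hss₀) ?_
    intro hzx
    simp only [mem_singleton_iff] at hzx
    rw [hzx, dist_self] at hz
    linarith
  have hcont : ContinuousOn (fun z => ‖f z‖) (sphere x s) :=
    (hf.continuousOn.mono (hsph.trans hcb)).norm
  have hne' : (sphere x s).Nonempty := ⟨x + s, by simp [abs_of_pos hs]⟩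
  obtain ⟨z₀, hz₀, hmin⟩ := (isCompact_sphere x s).exists_isMinOn hne' hcont
  set c : ℝ := ‖f z₀‖ with hc
  have hcpos : 0 < c := norm_pos_iff.2 (hfne z₀ hz₀)
  have hev : ∀ᶠ k in atTop, ∀ z ∈ ball x r, dist (f z) (F k z) < c / 2 :=
    (Metric.tendstoUniformlyOn_iff.1 hconv) (c / 2) (by positivity)
  filter_upwards [hF, hev] with k hFk hk
  by_contra hcon
  push Not at hcon
  have hnz : ∀ z ∈ closedBall x s, F k z ≠ 0 := fun z hz =>
    hcon z (closedBall_subset_ball hsδ hz)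
  have hxr : x ∈ ball x r := mem_ball_self hr
  have hFdiff : DifferentiableOn ℂ (fun z => (F k z)⁻¹) (closedBall x s) :=
    (hFk.mono hcb).inv hnz
  have hDC : DiffContOnCl ℂ (fun z => (F k z)⁻¹) (ball x s) := by
    refine ⟨hFdiff.mono ball_subset_closedBall, ?_⟩
    rw [closure_ball x hs.ne']
    exact hFdiff.continuousOn
  have hbd : ∀ z ∈ frontier (ball x s), ‖(F k z)⁻¹‖ ≤ 2 / c := by
    intro z hz
    rw [frontier_ball x hs.ne'] at hz
    have h1 : c ≤ ‖f z‖ := hmin hz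
    have h2 := hk z (hcb (hsph hz))
    have h3 : c / 2 ≤ ‖F k z‖ := by
      have := norm_sub_norm_le (f z) (F k z)
      rw [dist_eq_norm] at h2
      linarith
    rw [norm_inv]
    calc ‖F k z‖⁻¹ ≤ (c / 2)⁻¹ := by
          apply inv_anti₀ (by positivity) h3
      _ = 2 / c := by rw [inv_div]
  have hx := Complex.norm_le_of_forall_mem_frontier_norm_le isBounded_ball hDC hbd
    (subset_closure (mem_ball_self hs))
  have h4 := hk x hxr
  rw [h0, dist_eq_norm, zero_sub, norm_neg] at h4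
  have h5 : 0 < ‖F k x‖ := norm_pos_iff.2 (hnz x (mem_closedBall_self hs.le))
  rw [norm_inv] at hx
  have h6 : (c / 2)⁻¹ < ‖F k x‖⁻¹ := by
    apply inv_strictAnti₀ h5 h4
  rw [inv_div] at h6
  linarith


theorem hurwitz_exp (P : ℂ → ℂ → ℂ) (hP : Continuous (fun p : ℂ × ℂ => P p.1 p.2))
    (hd : Differentiable ℂ (fun p : ℂ × ℂ => P p.1 p.2))
    (v : ℂ) (hv : 0 < v.re) (h0 : P 0 (Complex.exp (-v)) = 0)
    (hne : ¬ ∀ᶠ z in 𝓝 v, P 0 (Complex.exp (-z)) = 0) (δ : ℝ) (hδ : 0 < δ) :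
    ∃ (M : ℕ) (z : ℂ), 1 ≤ M ∧ ‖z - v‖ < δ ∧
      P (Complex.exp (-(M * z))) (Complex.exp (-z)) = 0 := by
  set r : ℝ := v.re / 2 with hr
  have hr0 : 0 < r := by positivity
  have hre : ∀ z ∈ ball v r, r ≤ z.re := by
    intro z hz
    rw [mem_ball, dist_eq_norm] at hz
    have h1 : |(z - v).re| ≤ ‖z - v‖ := Complex.abs_re_le_norm _
    have h2 := (abs_le.1 (h1.trans hz.le)).1
    simp only [Complex.sub_re] at h2
    linarith
  set F : ℕ → ℂ → ℂ := fun k z => P (Complex.exp (-(((k + 1 : ℕ) : ℂ) * z))) (Complex.exp (-z)) with hF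
  set f : ℂ → ℂ := fun z => P 0 (Complex.exp (-z)) with hf
  have hdF : ∀ k, Differentiable ℂ (F k) := by
    intro k
    have h1 : Differentiable ℂ (fun z : ℂ => ((Complex.exp (-(((k + 1 : ℕ) : ℂ) * z)),
        Complex.exp (-z)) : ℂ × ℂ)) := by fun_prop
    exact hd.comp h1
  have hdf : Differentiable ℂ f := by
    have h1 : Differentiable ℂ (fun z : ℂ => (((0 : ℂ), Complex.exp (-z)) : ℂ × ℂ)) := by fun_prop
    exact hd.comp h1
  have hconv : TendstoUniformlyOn F f atTop (ball v r) := by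
    rw [Metric.tendstoUniformlyOn_iff]
    intro ε hε
    have hK : IsCompact ((closedBall (0 : ℂ) 1) ×ˢ (closedBall (0 : ℂ) 1)) :=
      (isCompact_closedBall _ _).prod (isCompact_closedBall _ _)
    have huc := hK.uniformContinuousOn_of_continuous hP.continuousOn
    rw [Metric.uniformContinuousOn_iff] at huc
    obtain ⟨d, hd0, hd1⟩ := huc ε hε
    have hlim : Tendsto (fun k : ℕ => Real.exp (-(((k + 1 : ℕ) : ℝ) * r))) atTop (𝓝 0) := by
      refine Real.tendsto_exp_atBot.comp ?_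
      refine tendsto_neg_atTop_atBot.comp ?_
      exact (tendsto_natCast_atTop_atTop.comp (tendsto_add_atTop_nat 1)).atTop_mul_const hr0
    filter_upwards [hlim.eventually (gt_mem_nhds hd0)] with k hk z hz
    have hz' := hre z hz
    have hn1 : ‖Complex.exp (-(((k + 1 : ℕ) : ℂ) * z))‖ ≤ Real.exp (-(((k + 1 : ℕ) : ℝ) * r)) := by
      rw [Complex.norm_exp]
      apply Real.exp_le_exp.2
      have : (-(((k + 1 : ℕ) : ℂ) * z)).re = -(((k + 1 : ℕ) : ℝ) * z.re) := by
        rw [Complex.neg_re, Complex.mul_re, Complex.natCast_re, Complex.natCast_im]; ring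
      rw [this]
      have hk0 : (0 : ℝ) ≤ ((k + 1 : ℕ) : ℝ) := Nat.cast_nonneg _
      have := mul_le_mul_of_nonneg_left hz' hk0
      linarith
    have hn1' : Real.exp (-(((k + 1 : ℕ) : ℝ) * r)) ≤ 1 := by
      rw [← Real.exp_zero]
      apply Real.exp_le_exp.2
      have hk0 : (0 : ℝ) ≤ ((k + 1 : ℕ) : ℝ) := Nat.cast_nonneg _
      nlinarith [mul_nonneg hk0 hr0.le]
    have hn2 : ‖Complex.exp (-z)‖ ≤ 1 := by
      rw [Complex.norm_exp, ← Real.exp_zero]
      apply Real.exp_le_exp.2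
      rw [Complex.neg_re]; linarith
    have := hd1 ((0 : ℂ), Complex.exp (-z)) ⟨by simp, by simpa using hn2⟩
      (Complex.exp (-(((k + 1 : ℕ) : ℂ) * z)), Complex.exp (-z))
      ⟨by simpa using hn1.trans hn1', by simpa using hn2⟩
      (by
        rw [Prod.dist_eq, dist_self, max_eq_left dist_nonneg, dist_comm, dist_zero_right]
        exact lt_of_le_of_lt hn1 hk)
    exact this
  have hev := hurwitz hr0 (Eventually.of_forall fun k => (hdF k).differentiableOn)
    hdf.differentiableOn hconv h0 hne δ hδ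
  obtain ⟨k, ζ, hζ, hζ0⟩ := hev.exists
  refine ⟨k + 1, ζ, by omega, ?_, hζ0⟩
  rwa [mem_ball, dist_eq_norm] at hζ

end Pool.RRC
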