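import Pool.Agent.RRC.Defs

/-!
# INC (45 lines). Alternating sum over the sets which meet every fibre.
-/

namespace Pool.RRC

open Classical

theorem alt_sum {V Q : Type} [Fintype V] [Fintype Q] (p : V → Q) (hp : Function.Surjective p) :
    ∑ T : Finset V, (if ∀ c, ∃ v ∈ T, p v = c then ((-1 : ℂ)) ^ T.card else 0) =
      (-1) ^ Fintype.card Q := by
  have h1 : ∀ T : Finset V, (if ∀ c, ∃ v ∈ T, p v = c then ((-1 : ℂ)) ^ T.card else 0) =
      ∑ D : Finset Q, (-1 : ℂ) ^ D.card *
        (if T ⊆ Finset.univ.filter (fun v => p v ∉ D) then ((-1 : ℂ)) ^ T.card else 0) := by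
    intro T
    have h2 : ∀ D : Finset Q, (T ⊆ Finset.univ.filter (fun v => p v ∉ D)) ↔
        D ⊆ Finset.univ.filter (fun c => ¬ ∃ v ∈ T, p v = c) := by
      intro D
      simp only [Finset.subset_iff, Finset.mem_filter, Finset.mem_univ, true_and]
      constructor
      · rintro h c hc ⟨v, hv, rfl⟩
        exact h hv hc
      · intro h v hv hc
        exact h hc ⟨v, hv, rfl⟩
    have h3 : ∑ D : Finset Q, (-1 : ℂ) ^ D.card *
        (if T ⊆ Finset.univ.filter (fun v => p v ∉ D) then ((-1 : ℂ)) ^ T.card else 0) =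
        (-1 : ℂ) ^ T.card * ∑ D ∈ (Finset.univ.filter (fun c => ¬ ∃ v ∈ T, p v = c)).powerset,
          (-1 : ℂ) ^ D.card := by
      rw [Finset.mul_sum]
      rw [← Finset.sum_filter_add_sum_filter_not Finset.univ
        (fun D : Finset Q => D ⊆ Finset.univ.filter (fun c => ¬ ∃ v ∈ T, p v = c))]
      rw [Finset.sum_eq_zero (s := Finset.univ.filter
        (fun D : Finset Q => ¬ D ⊆ Finset.univ.filter (fun c => ¬ ∃ v ∈ T, p v = c)))]
      · rw [add_zero]
        refine Finset.sum_congr ?_ ?_
        · ext D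
          simp
        · intro D hD
          rw [if_pos ((h2 D).2 (Finset.mem_powerset.1 hD))]
          ring
      · intro D hD
        rw [if_neg, mul_zero]
        intro h
        exact (Finset.mem_filter.1 hD).2 ((h2 D).1 h)
    rw [h3]
    have h4 : ∑ D ∈ (Finset.univ.filter (fun c => ¬ ∃ v ∈ T, p v = c)).powerset,
          (-1 : ℂ) ^ D.card = if (Finset.univ.filter (fun c => ¬ ∃ v ∈ T, p v = c)) = ∅ then 1 else 0 := by
      have h5 := Finset.sum_powerset_neg_one_pow_card
        (x := Finset.univ.filter (fun c => ¬ ∃ v ∈ T, p v = c))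
      have h6 := congrArg (Int.cast : ℤ → ℂ) h5
      push_cast at h6
      exact h6
    rw [h4]
    have h5 : (Finset.univ.filter (fun c => ¬ ∃ v ∈ T, p v = c)) = ∅ ↔ ∀ c, ∃ v ∈ T, p v = c := by
      rw [Finset.filter_eq_empty_iff]
      simp
    by_cases h : ∀ c, ∃ v ∈ T, p v = c
    · rw [if_pos h, if_pos (h5.2 h), mul_one]
    · rw [if_neg h, if_neg (fun h' => h (h5.1 h')), mul_zero]
  rw [Finset.sum_congr rfl (fun T _ => h1 T), Finset.sum_comm]
  rw [Finset.sum_eq_single (Finset.univ : Finset Q)]
  · rw [Finset.card_univ]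
    have h2 : (Finset.univ.filter (fun v => p v ∉ (Finset.univ : Finset Q))) = ∅ := by
      rw [Finset.filter_eq_empty_iff]
      simp
    rw [h2]
    simp [Finset.subset_empty]
  · intro D _ hD
    have h3 : (Finset.univ.filter (fun v => p v ∉ D)) ≠ ∅ := by
      intro h
      apply hD
      rw [Finset.filter_eq_empty_iff] at h
      ext c
      obtain ⟨v, rfl⟩ := hp c
      simpa using h (Finset.mem_univ v)
    rw [← Finset.mul_sum]
    have h4 : ∑ T : Finset V, (if T ⊆ Finset.univ.filter (fun v => p v ∉ D) then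
        ((-1 : ℂ)) ^ T.card else 0) = 0 := by
      rw [← Finset.sum_filter]
      have h5 := Finset.sum_powerset_neg_one_pow_card
        (x := Finset.univ.filter (fun v => p v ∉ D))
      have h6 := congrArg (Int.cast : ℤ → ℂ) h5
      push_cast at h6
      rw [if_neg h3] at h6
      rw [← h6]
      refine Finset.sum_congr ?_ (fun _ _ => rfl)
      ext T
      simp
    rw [h4, mul_zero]
  · intro h
    exact absurd (Finset.mem_univ _) h

end Pool.RRC
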