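import Pool.Agent.RRC.Defs

/-!
# K2 (40 lines). The graph with two vertices and one edge.

Proof. The sets of edges are `∅` and `{()}` (`Finset Unit`; `Fintype.sum` over
`Finset Unit` by `decide`/`simp` or `Finset.univ = {∅, {()}}`). `Comp ∅` has two classes (the relation
is empty, so `Quot` is in bijection with `Bool`; e.g. lift `id`), `Comp {()}` has one class.
-/

namespace Pool.RRC

open Classical

/-- two vertices, one edge -/
def K2 : MG Bool Unit where
  src _ := false
  tgt _ := true

private theorem K2_one : Subsingleton (K2.Comp ({()} : Set Unit)) := by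
  constructor
  have h : ∀ b : Bool, K2.cl ({()} : Set Unit) b = K2.cl ({()} : Set Unit) true := by
    intro b
    cases b
    · exact Quot.sound ⟨(), rfl, rfl, rfl⟩
    · rfl
  intro x y
  induction x using Quot.ind with
  | mk a =>
    induction y using Quot.ind with
    | mk b =>
      exact (h a).trans (h b).symm

private def K2_lift : K2.Comp (∅ : Set Unit) → Bool :=
  Quot.lift id (by rintro a b ⟨e, he, -⟩; exact he.elim)

private theorem K2_two : Nat.card (K2.Comp (∅ : Set Unit)) = 2 := by
  have e : K2.Comp (∅ : Set Unit) ≃ Bool :=
    { toFun := K2_lift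
      invFun := fun b => Quot.mk _ b
      left_inv := by
        intro x
        induction x using Quot.ind with
        | mk a => rfl
      right_inv := fun b => rfl }
  rw [Nat.card_congr e, Nat.card_eq_fintype_card, Fintype.card_bool]

private theorem K2_univ : (Finset.univ : Finset (Finset Unit)) = {∅, {()}} := by
  ext S
  simp only [Finset.mem_univ, Finset.mem_insert, Finset.mem_singleton, true_iff]
  rcases Finset.eq_empty_or_nonempty S with h | ⟨x, hx⟩
  · exact Or.inl h
  · right
    ext y
    cases y
    cases x
    simp [hx]

theorem K2_Z (w : Unit → ℂ) : K2.Z w = 1 - w () := by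
  unfold MG.Z
  rw [K2_univ, Finset.sum_pair (by simp)]
  have h1 : K2.cc ((∅ : Finset Unit) : Set Unit) = 2 := by
    rw [Finset.coe_empty]
    exact K2_two
  have h2 : K2.cc (({()} : Finset Unit) : Set Unit) = 1 := by
    rw [Finset.coe_singleton]
    have := K2_one
    have hne : Nonempty (K2.Comp ({()} : Set Unit)) := ⟨Quot.mk _ true⟩
    exact Nat.card_unique
  rw [h1, h2, Finset.prod_empty, Finset.prod_singleton]
  ring

theorem K2_R (w : Unit → ℂ) : K2.R w = w () := by
  unfold MG.R
  rw [K2_univ, Finset.sum_pair (by simp)]
  have h1 : ¬ K2.Conn ((∅ : Finset Unit) : Set Unit) := by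
    rw [Finset.coe_empty]
    intro h
    have h2 : Subsingleton (K2.Comp (∅ : Set Unit)) := h
    have h3 := Finite.card_le_one_iff_subsingleton (α := K2.Comp (∅ : Set Unit)) |>.2 h2
    rw [K2_two] at h3
    omega
  have h2 : K2.Conn (({()} : Finset Unit) : Set Unit) := by
    rw [Finset.coe_singleton]
    exact K2_one
  rw [if_neg h1, if_pos h2, Finset.prod_singleton, zero_add]

theorem K2_conn : K2.Conn Set.univ := by
  have h : (Set.univ : Set Unit) = {()} := by
    ext x
    cases x
    simp
  rw [h]
  exact K2_one

end Pool.RRC
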