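import Pool.Agent.RRC.CNN

/-!
# RELF (30 lines). The reliability polynomial in terms of `R`, and `U` in terms of `Zmulti`.
-/

namespace Pool.RRC

theorem relPoly_eq {V E : Type} [Nonempty V] [Fintype E] (G : MG V E) (q : ℂ) (hq : q ≠ 0) :
    relPoly G.ends q = q ^ Fintype.card E * G.R (fun _ => q⁻¹ - 1) := by
  classical
  unfold relPoly MG.R
  rw [Finset.mul_sum]
  refine Finset.sum_congr rfl (fun S _ => ?_)
  have h1 : (sub G.ends (S : Set E)).Connected ↔ G.Conn (S : Set E) := by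
    rw [conn_iff]
    exact ⟨fun h => h.2, fun h => ⟨inferInstance, h⟩⟩
  by_cases h : G.Conn (S : Set E)
  · rw [if_pos (h1.2 h), if_pos h, Finset.prod_const]
    have h2 : Fintype.card E = (Fintype.card E - S.card) + S.card :=
      (Nat.sub_add_cancel (Finset.card_le_univ S)).symm
    have h3 : q ^ Fintype.card E = q ^ (Fintype.card E - S.card) * q ^ S.card := by
      rw [← pow_add, ← h2]
    rw [h3]
    have h4 : (1 - q) ^ S.card = q ^ S.card * (q⁻¹ - 1) ^ S.card := by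
      rw [← mul_pow, mul_sub, mul_inv_cancel₀ hq, mul_one]
    rw [h4]
    ring
  · rw [if_neg (fun h' => h (h1.1 h')), if_neg h, mul_zero]

theorem mem_Zmulti (q : ℂ) (hq : q ≠ 0) (h : q⁻¹ ∈ U) : q ∈ Zmulti := by
  obtain ⟨V, E, hV, hE, hN, G, hl, hc, hR⟩ := h
  refine ⟨V, E, hV, hE, G.ends, ?_, ?_, ?_⟩
  · intro e
    unfold MG.ends
    rw [Sym2.mk_isDiag_iff]
    exact hl e
  · rw [conn_iff]
    exact ⟨hN, hc⟩
  · rw [relPoly_eq G q hq, hR, mul_zero]

end Pool.RRC
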