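import Pool.Agent.RRC.Defs

/-!
# ROOT (50 lines). Pure complex analysis: `k`-th roots close to a given point.

Proof. `r = ‖u‖^(-1/k)` (real power). With `α = arg p`, `β = arg u` choose the integer
`l = round ((k α + β) / (2 π))` and `φ = (2 π l - β)/k`; then `|φ - α| ≤ π/k` and `q = r exp (I φ)` satisfies
`q^k = r^k exp (I (2 π l - β)) = ‖u‖⁻¹ exp (-I β) = u⁻¹`. `‖q - p‖ ≤ |r - ‖p‖| + ‖p‖ ‖exp (I φ) - exp (I α)‖`
and `‖exp (I φ) - exp (I α)‖ ≤ |φ - α|` (or `≤ 2 |φ - α|` from `Complex.norm_exp_sub_one_le` when `|φ - α| ≤ 1`;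
the constant `10` in the statement leaves room: for `k ≤ 3` use the trivial bound `2`).
-/

namespace Pool.RRC

private theorem expI_dist (a b : ℝ) :
    ‖Complex.exp (Complex.I * (a : ℂ)) - Complex.exp (Complex.I * (b : ℂ))‖ ≤ |a - b| := by
  have h1 : Complex.exp (Complex.I * (a : ℂ)) - Complex.exp (Complex.I * (b : ℂ))
      = Complex.exp (Complex.I * (b : ℂ)) *
        (Complex.exp (Complex.I * ((a - b : ℝ) : ℂ)) - 1) := by
    rw [mul_sub, ← Complex.exp_add, mul_one]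
    congr 2
    push_cast
    ring
  have h2 : ‖Complex.exp (Complex.I * (b : ℂ))‖ = 1 := by
    rw [mul_comm]
    exact Complex.norm_exp_ofReal_mul_I b
  rw [h1, norm_mul, h2, one_mul]
  exact Real.norm_exp_I_mul_ofReal_sub_one_le

theorem root_near (u p : ℂ) (hu : u ≠ 0) (k : ℕ) (hk : 1 ≤ k) :
    ∃ q : ℂ, q ≠ 0 ∧ q ^ k = u⁻¹ ∧
      ‖q - p‖ ≤ |‖u‖ ^ (-(1 : ℝ) / k) - ‖p‖| + 10 * ‖p‖ / k := by
  have hk0 : (0 : ℝ) < k := by exact_mod_cast hk
  have hkne : (k : ℝ) ≠ 0 := hk0.ne'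
  have hkc : (k : ℂ) ≠ 0 := by exact_mod_cast (show k ≠ 0 by omega)
  have hun : 0 < ‖u‖ := norm_pos_iff.mpr hu
  have hpi : 0 < Real.pi := Real.pi_pos
  set r : ℝ := ‖u‖ ^ (-(1 : ℝ) / k) with hr
  have hrpos : 0 < r := Real.rpow_pos_of_pos hun _
  have hrk : r ^ k = ‖u‖⁻¹ := by
    rw [hr, ← Real.rpow_natCast, ← Real.rpow_mul hun.le, div_mul_cancel₀ _ hkne, Real.rpow_neg_one]
  set α : ℝ := Complex.arg p with hα
  set β : ℝ := Complex.arg u with hβ
  set l : ℤ := round ((k * α + β) / (2 * Real.pi)) with hl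
  set φ : ℝ := (2 * Real.pi * l - β) / k with hφ
  have hround : |(k * α + β) / (2 * Real.pi) - l| ≤ 1 / 2 := abs_sub_round _
  have hφα : |φ - α| ≤ Real.pi / k := by
    have e1 : φ - α = -(2 * Real.pi / k) * ((k * α + β) / (2 * Real.pi) - l) := by
      rw [hφ]
      field_simp
      ring
    rw [e1, abs_mul, abs_neg, abs_of_pos (by positivity)]
    calc 2 * Real.pi / k * |(k * α + β) / (2 * Real.pi) - l|
        ≤ 2 * Real.pi / k * (1 / 2) := by gcongr
      _ = Real.pi / k := by ring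
  have hcu : (‖u‖ : ℂ) * Complex.exp (Complex.I * (β : ℂ)) = u := by
    rw [mul_comm Complex.I]
    exact Complex.norm_mul_exp_arg_mul_I u
  have hcp : (‖p‖ : ℂ) * Complex.exp (Complex.I * (α : ℂ)) = p := by
    rw [mul_comm Complex.I]
    exact Complex.norm_mul_exp_arg_mul_I p
  refine ⟨(r : ℂ) * Complex.exp (Complex.I * (φ : ℂ)), ?_, ?_, ?_⟩
  · exact mul_ne_zero (by exact_mod_cast hrpos.ne') (Complex.exp_ne_zero _)
  · rw [mul_pow, ← Complex.exp_nat_mul]
    have e2 : (k : ℂ) * (Complex.I * (φ : ℂ))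
        = (l : ℂ) * (2 * Real.pi * Complex.I) + -(Complex.I * (β : ℂ)) := by
      rw [hφ]
      push_cast
      field_simp
      ring
    rw [e2, Complex.exp_add, Complex.exp_int_mul_two_pi_mul_I, one_mul, Complex.exp_neg,
      ← Complex.ofReal_pow, hrk, Complex.ofReal_inv, ← mul_inv, hcu]
  · have e3 : (r : ℂ) * Complex.exp (Complex.I * (φ : ℂ)) - p
        = ((r - ‖p‖ : ℝ) : ℂ) * Complex.exp (Complex.I * (φ : ℂ))
          + (‖p‖ : ℂ) * (Complex.exp (Complex.I * (φ : ℂ)) - Complex.exp (Complex.I * (α : ℂ))) := by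
      nth_rewrite 1 [← hcp]
      push_cast
      ring
    rw [e3]
    refine (norm_add_le _ _).trans ?_
    have h4 : ‖((r - ‖p‖ : ℝ) : ℂ) * Complex.exp (Complex.I * (φ : ℂ))‖ = |r - ‖p‖| := by
      rw [norm_mul, Complex.norm_real, mul_comm Complex.I, Complex.norm_exp_ofReal_mul_I, mul_one,
        Real.norm_eq_abs]
    have h5 : ‖(‖p‖ : ℂ) * (Complex.exp (Complex.I * (φ : ℂ)) -
        Complex.exp (Complex.I * (α : ℂ)))‖ ≤ 10 * ‖p‖ / k := by
      rw [norm_mul, Complex.norm_real, norm_norm]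
      calc ‖p‖ * ‖Complex.exp (Complex.I * (φ : ℂ)) - Complex.exp (Complex.I * (α : ℂ))‖
          ≤ ‖p‖ * (Real.pi / k) := by
            gcongr
            exact (expI_dist φ α).trans hφα
        _ ≤ ‖p‖ * (10 / k) := by
            gcongr
            linarith [Real.pi_le_four]
        _ = 10 * ‖p‖ / k := by ring
    rw [h4]
    linarith

end Pool.RRC
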