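import Pool.Agent.RRC.Defs

/-!
# SUBC (60 lines). Number of components of a subgraph of the subdivided graph.

For a set `S` of half edges `(e, b)` let `H = {e | (e,false) ∈ S ∧ (e,true) ∈ S}` and
`N = {e | (e,false) ∉ S ∧ (e,true) ∉ S}`. Proof of `subdivEquiv`: the map
`f : V ⊕ E → G.Comp H ⊕ N`, `f (inl v) = inl (cl v)`, `f (inr e) = inl (cl (src e))` if
`(e,false) ∈ S`, else `inl (cl (tgt e))` if `(e,true) ∈ S`, else `inr e`, respects the relation of
`G.subdiv` (for `(e,true) ∈ S` and `(e,false) ∈ S` use that `e ∈ H`, so `cl (src e) = cl (tgt e)`); the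
inverse is `inl (cl v) ↦ cl (inl v)` (for `e ∈ H`: `cl (inl (src e)) = cl (inr e) = cl (inl (tgt e))`),
`inr e ↦ cl (inr e)`. Both compositions are the identity (`Quot.ind`, `Quot.sound`).
`cc_subdiv`: `Nat.card_congr`, `Nat.card_sum` (everything is finite).
`conn_subdiv`: a sum type is a subsingleton with nonempty left part iff the left part is a
subsingleton and the right part is empty. `subdiv_conn_univ`: special case `S = univ`.
-/

namespace Pool.RRC

open Classical

variable {V E : Type}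

/-- edges with both halves in `S` -/
def both (S : Set (Σ _ : E, Bool)) : Set E := {e | (⟨e, false⟩ : Σ _ : E, Bool) ∈ S ∧
  (⟨e, true⟩ : Σ _ : E, Bool) ∈ S}

/-- edges with no half in `S` -/
def nohalf (S : Set (Σ _ : E, Bool)) : Set E := {e | (⟨e, false⟩ : Σ _ : E, Bool) ∉ S ∧
  (⟨e, true⟩ : Σ _ : E, Bool) ∉ S}

private noncomputable def fwd (G : MG V E) (S : Set (Σ _ : E, Bool)) :
    V ⊕ E → (G.Comp (both S) ⊕ (nohalf S))
  | Sum.inl v => Sum.inl (G.cl (both S) v)
  | Sum.inr e =>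
    if h : (⟨e, false⟩ : Σ _ : E, Bool) ∈ S then Sum.inl (G.cl (both S) (G.src e))
    else if h' : (⟨e, true⟩ : Σ _ : E, Bool) ∈ S then Sum.inl (G.cl (both S) (G.tgt e))
    else Sum.inr ⟨e, h, h'⟩

private theorem fwd_resp (G : MG V E) (S : Set (Σ _ : E, Bool)) (a b : V ⊕ E)
    (h : G.subdiv.Rl S a b) : fwd G S a = fwd G S b := by
  obtain ⟨⟨e, c⟩, hx, rfl, rfl⟩ := h
  cases c
  · change Sum.inl (G.cl (both S) (G.src e)) = fwd G S (Sum.inr e)
    simp only [fwd]
    rw [dif_pos hx]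
  · change Sum.inl (G.cl (both S) (G.tgt e)) = fwd G S (Sum.inr e)
    simp only [fwd]
    by_cases h0 : (⟨e, false⟩ : Σ _ : E, Bool) ∈ S
    · rw [dif_pos h0]
      congr 1
      exact (Quot.sound ⟨e, ⟨h0, hx⟩, rfl, rfl⟩).symm
    · rw [dif_neg h0, dif_pos hx]

private theorem bwd_resp (G : MG V E) (S : Set (Σ _ : E, Bool)) (a b : V)
    (h : G.Rl (both S) a b) : G.subdiv.cl S (Sum.inl a) = G.subdiv.cl S (Sum.inl b) := by
  obtain ⟨e, he, rfl, rfl⟩ := h
  have h1 : G.subdiv.cl S (Sum.inl (G.src e)) = G.subdiv.cl S (Sum.inr e) :=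
    Quot.sound ⟨⟨e, false⟩, he.1, rfl, rfl⟩
  have h2 : G.subdiv.cl S (Sum.inl (G.tgt e)) = G.subdiv.cl S (Sum.inr e) :=
    Quot.sound ⟨⟨e, true⟩, he.2, rfl, rfl⟩
  rw [h1, h2]

theorem subdivEquiv (G : MG V E) (S : Set (Σ _ : E, Bool)) :
    Nonempty (G.subdiv.Comp S ≃ (G.Comp (both S) ⊕ (nohalf S))) := by
  refine ⟨⟨Quot.lift (fwd G S) (fwd_resp G S),
    Sum.elim (Quot.lift (fun v => G.subdiv.cl S (Sum.inl v)) (bwd_resp G S))
      (fun e => G.subdiv.cl S (Sum.inr e.1)), ?_, ?_⟩⟩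
  · intro q
    induction q using Quot.ind with
    | mk x =>
      rcases x with v | e
      · rfl
      · change Sum.elim _ _ (fwd G S (Sum.inr e)) = G.subdiv.cl S (Sum.inr e)
        simp only [fwd]
        by_cases h0 : (⟨e, false⟩ : Σ _ : E, Bool) ∈ S
        · rw [dif_pos h0]
          exact Quot.sound ⟨⟨e, false⟩, h0, rfl, rfl⟩
        · rw [dif_neg h0]
          by_cases h1 : (⟨e, true⟩ : Σ _ : E, Bool) ∈ S
          · rw [dif_pos h1]
            exact Quot.sound ⟨⟨e, true⟩, h1, rfl, rfl⟩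
          · rw [dif_neg h1]
            rfl
  · intro y
    rcases y with q | ⟨e, he⟩
    · induction q using Quot.ind with
      | mk v => rfl
    · change fwd G S (Sum.inr e) = Sum.inr ⟨e, he⟩
      simp only [fwd]
      rw [dif_neg he.1, dif_neg he.2]

private theorem finite_comp [Finite V] (G : MG V E) (S : Set E) : Finite (G.Comp S) :=
  Finite.of_surjective (G.cl S) (fun q => Quot.inductionOn q fun v => ⟨v, rfl⟩)

theorem cc_subdiv [Finite V] [Finite E] (G : MG V E) (S : Set (Σ _ : E, Bool)) :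
    G.subdiv.cc S = G.cc (both S) + Nat.card (nohalf S) := by
  obtain ⟨e⟩ := subdivEquiv G S
  have := finite_comp G (both S)
  unfold MG.cc
  rw [Nat.card_congr e, Nat.card_sum]

theorem conn_subdiv [Nonempty V] (G : MG V E) (S : Set (Σ _ : E, Bool)) :
    G.subdiv.Conn S ↔ G.Conn (both S) ∧ nohalf S = ∅ := by
  obtain ⟨e⟩ := subdivEquiv G S
  unfold MG.Conn
  rw [e.subsingleton_congr]
  constructor
  · intro h
    refine ⟨⟨fun a b => ?_⟩, ?_⟩
    · exact Sum.inl_injective (h.elim (Sum.inl a) (Sum.inl b))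
    · rw [Set.eq_empty_iff_forall_notMem]
      intro x hx
      obtain ⟨v⟩ := ‹Nonempty V›
      exact absurd (h.elim (Sum.inl (G.cl (both S) v)) (Sum.inr ⟨x, hx⟩)) (by simp)
  · rintro ⟨h1, h2⟩
    refine ⟨fun a b => ?_⟩
    have h3 : ∀ x : nohalf S, False := fun x =>
      (Set.eq_empty_iff_forall_notMem.mp h2) x.1 x.2
    rcases a with a | a
    · rcases b with b | b
      · rw [h1.elim a b]
      · exact (h3 b).elim
    · exact (h3 a).elim

theorem subdiv_conn_univ [Nonempty V] (G : MG V E) (h : G.Conn Set.univ) :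
    G.subdiv.Conn Set.univ := by
  rw [conn_subdiv]
  have h1 : both (Set.univ : Set (Σ _ : E, Bool)) = Set.univ := by
    ext x
    simp [both]
  have h2 : nohalf (Set.univ : Set (Σ _ : E, Bool)) = ∅ := by
    ext x
    simp [nohalf]
  rw [h1]
  exact ⟨h, h2⟩

end Pool.RRC
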