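import Pool.Agent.RRC.GL
import Pool.Agent.RRC.SIG
import Pool.Agent.RRC.SUBC

/-!
# SUBR (60 lines). Series connection for the connected sum `R`: `w ↦ w / 2`.

Proof. `sum_sigma` and `prod_sigma'` with `X e = Bool`; by `conn_subdiv` the summand of
`s : E → Finset Bool` is `[G.Conn {e | s e = univ}] * ∏ e, g e (s e)` with
`g e x = if x = ∅ then 0 else w e ^ x.card` (coercions: `both ↑(univ.sigma s) = ↑(univ.filter fun e =>
s e = univ)`, and `nohalf ↑(univ.sigma s) = ∅` iff all `s e ≠ ∅`). Then `grouping` with
`τ e x = (x = Finset.univ)`: the four sets of `Bool` give `A e = w e ^ 2`, `B e = 2 * w e`, and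
`(∏_H w²) (∏_{Hᶜ} 2 w) = (∏_E 2 w) ∏_H (w / 2)` (also if some `w e = 0`: `w² = (2 w) (w / 2)`).
-/

namespace Pool.RRC

open Classical

private theorem subr_both {E : Type} [Fintype E] (s : E → Finset Bool) :
    both (↑((Finset.univ : Finset E).sigma s) : Set (Σ _ : E, Bool)) =
      ↑(Finset.univ.filter fun e => s e = Finset.univ) := by
  ext e
  simp only [both, Set.mem_ofPred_eq, Finset.coe_sigma, Set.mem_sigma_iff, Finset.mem_coe,
    Finset.mem_univ, true_and, Finset.coe_filter]
  constructor
  · rintro ⟨h1, h2⟩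
    ext b
    cases b
    · simpa using h1
    · simpa using h2
  · intro h
    rw [h]
    simp

private theorem subr_nohalf {E : Type} [Fintype E] (s : E → Finset Bool) :
    nohalf (↑((Finset.univ : Finset E).sigma s) : Set (Σ _ : E, Bool)) = ∅ ↔ ∀ e, s e ≠ ∅ := by
  rw [Set.eq_empty_iff_forall_notMem]
  refine forall_congr' fun e => ?_
  simp only [nohalf, Set.mem_ofPred_eq, Finset.coe_sigma, Set.mem_sigma_iff, Finset.mem_coe,
    Finset.mem_univ, true_and]
  constructor
  · intro h h0
    apply h
    rw [h0]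
    simp
  · rintro h ⟨h1, h2⟩
    apply h
    ext b
    cases b
    · simpa using h1
    · simpa using h2

private noncomputable def subr_g {E : Type} (w : E → ℂ) (e : E) (x : Finset Bool) : ℂ :=
  if x = ∅ then 0 else w e ^ x.card

private theorem subr_univ : (Finset.univ : Finset (Finset Bool)) =
    {∅, {false}, {true}, {false, true}} := by decide

private theorem subr_A {E : Type} (w : E → ℂ) (e : E) :
    (∑ x : Finset Bool, if x = Finset.univ then subr_g w e x else 0) = w e ^ 2 := by
  rw [Finset.sum_ite_eq' Finset.univ (Finset.univ : Finset Bool)]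
  simp [subr_g]

private theorem subr_B {E : Type} (w : E → ℂ) (e : E) :
    (∑ x : Finset Bool, if x = Finset.univ then 0 else subr_g w e x) = 2 * w e := by
  have h : (∑ x : Finset Bool, if x = Finset.univ then 0 else subr_g w e x) +
      (∑ x : Finset Bool, if x = Finset.univ then subr_g w e x else 0) =
      ∑ x : Finset Bool, subr_g w e x := by
    rw [← Finset.sum_add_distrib]
    refine Finset.sum_congr rfl fun x _ => ?_
    by_cases hx : x = Finset.univ
    · rw [if_pos hx, if_pos hx, zero_add]
    · rw [if_neg hx, if_neg hx, add_zero]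
  have h2 : ∑ x : Finset Bool, subr_g w e x = 2 * w e + w e ^ 2 := by
    rw [subr_univ]
    rw [Finset.sum_insert (by decide), Finset.sum_insert (by decide),
      Finset.sum_insert (by decide), Finset.sum_singleton]
    have c1 : ({false} : Finset Bool) ≠ ∅ := by decide
    have c2 : ({true} : Finset Bool) ≠ ∅ := by decide
    have c3 : ({false, true} : Finset Bool) ≠ ∅ := by decide
    have d1 : ({false, true} : Finset Bool).card = 2 := by decide
    unfold subr_g
    rw [if_pos rfl, if_neg c1, if_neg c2, if_neg c3, Finset.card_singleton, Finset.card_singleton,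
      d1]
    ring
  rw [subr_A, h2] at h
  linear_combination h

private theorem subr_A' {E : Type} (w : E → ℂ) (e : E)
    (inst : ∀ x : Finset Bool, Decidable (x = Finset.univ)) :
    (∑ x : Finset Bool, @ite _ (x = Finset.univ) (inst x) (subr_g w e x) 0) = w e ^ 2 := by
  rw [← subr_A w e]
  refine Finset.sum_congr rfl fun x _ => ?_
  congr

private theorem subr_B' {E : Type} (w : E → ℂ) (e : E)
    (inst : ∀ x : Finset Bool, Decidable (x = Finset.univ)) :
    (∑ x : Finset Bool, @ite _ (x = Finset.univ) (inst x) 0 (subr_g w e x)) = 2 * w e := by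
  rw [← subr_B w e]
  refine Finset.sum_congr rfl fun x _ => ?_
  congr

theorem R_subdiv {V E : Type} [Nonempty V] [Fintype E] (G : MG V E) (w : E → ℂ) :
    G.subdiv.R (fun x => w x.1) = (∏ e, (2 * w e)) * G.R (fun e => w e / 2) := by
  unfold MG.R
  rw [sum_sigma]
  have h1 : ∀ s : E → Finset Bool,
      (if G.subdiv.Conn (↑((Finset.univ : Finset E).sigma s) : Set (Σ _ : E, Bool)) then
        ∏ x ∈ (Finset.univ : Finset E).sigma s, w x.1 else 0) =
      (fun H : Finset E => if G.Conn (H : Set E) then (1 : ℂ) else 0)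
        (Finset.univ.filter fun e => s e = Finset.univ) * ∏ e, subr_g w e (s e) := by
    intro s
    rw [prod_sigma']
    simp only
    have hc : G.subdiv.Conn (↑((Finset.univ : Finset E).sigma s) : Set (Σ _ : E, Bool)) ↔
        G.Conn (↑(Finset.univ.filter fun e => s e = Finset.univ) : Set E) ∧ ∀ e, s e ≠ ∅ := by
      rw [conn_subdiv, subr_both, subr_nohalf]
    by_cases hn : ∀ e, s e ≠ ∅
    · have hp : ∏ e, subr_g w e (s e) = ∏ e, w e ^ (s e).card := by
        refine Finset.prod_congr rfl fun e _ => ?_
        unfold subr_g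
        rw [if_neg (hn e)]
      rw [hp]
      by_cases hG : G.Conn (↑(Finset.univ.filter fun e => s e = Finset.univ) : Set E)
      · rw [if_pos (hc.2 ⟨hG, hn⟩), if_pos hG, one_mul]
      · rw [if_neg (fun h => hG (hc.1 h).1), if_neg hG, zero_mul]
    · push Not at hn
      obtain ⟨e, he⟩ := hn
      have hp : ∏ e, subr_g w e (s e) = 0 := by
        refine Finset.prod_eq_zero (Finset.mem_univ e) ?_
        unfold subr_g
        rw [if_pos he]
      rw [hp, mul_zero, if_neg (fun h => (hc.1 h).2 e he)]
  refine (Finset.sum_congr rfl fun s _ => ?_).trans ((grouping (X := fun _ => Finset Bool)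
    (fun _ x => x = Finset.univ)
    (fun H : Finset E => if G.Conn (H : Set E) then (1 : ℂ) else 0) (subr_g w)).trans ?_)
  · rw [h1 s]
    congr!
  rw [Finset.mul_sum]
  refine Finset.sum_congr rfl fun H _ => ?_
  have hcalc : ∀ (a x y x' y' z : ℂ), x = x' → y = y' → a * (x' * y') = z →
      a * (x * y) = z := by
    rintro a x y x' y' z rfl rfl h
    exact h
  refine hcalc _ _ _ (∏ e ∈ H, w e ^ 2) (∏ e ∈ Hᶜ, (2 * w e)) _
    (Finset.prod_congr rfl fun e _ => subr_A' w e _)
    (Finset.prod_congr rfl fun e _ => subr_B' w e _) ?_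
  have hA : (∏ e ∈ H, w e ^ 2) = (∏ e ∈ H, (2 * w e)) * ∏ e ∈ H, (w e / 2) := by
    rw [← Finset.prod_mul_distrib]
    refine Finset.prod_congr rfl fun e _ => ?_
    ring
  rw [hA]
  have hE : (∏ e ∈ H, (2 * w e)) * ∏ e ∈ Hᶜ, (2 * w e) = ∏ e, (2 * w e) :=
    Finset.prod_mul_prod_compl H _
  by_cases hG : G.Conn (H : Set E)
  · simp only [if_pos hG, one_mul]
    rw [← hE]
    ring
  · simp only [if_neg hG, zero_mul, mul_zero]

end Pool.RRC
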