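import Pool.Agent.RRC.GL
import Pool.Agent.RRC.SIG
import Pool.Agent.RRC.SUBC

/-!
# SUBZ (60 lines). Series connection for the Potts sum `Z` (with `-1` states).

Proof. `sum_sigma` and `prod_sigma'` with `X e = Bool`; by `cc_subdiv` the summand of
`s : E → Finset Bool` is `(-1) ^ G.cc {e | s e = univ} * ∏ e, g e (s e)` with
`g e x = if x = ∅ then -1 else w e ^ x.card` (`both ↑(univ.sigma s) = ↑(univ.filter fun e => s e = univ)`
and `Nat.card (nohalf ..)` is the number of `e` with `s e = ∅`, `(-1) ^ card = ∏ e, if s e = ∅ then -1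
else 1`). Then `grouping` with `τ e x = (x = Finset.univ)`: the four sets of `Bool` give `A e = w e ^ 2`,
`B e = 2 * w e - 1`, and `(∏_H w²) (∏_{Hᶜ} (2 w - 1)) = (∏_E (2 w - 1)) ∏_H (w² / (2 w - 1))`.
-/

namespace Pool.RRC

open Classical

private theorem both_sigma {E : Type} [Fintype E] (s : E → Finset Bool) :
    both (↑((Finset.univ : Finset E).sigma s) : Set (Σ _ : E, Bool)) =
      (↑(Finset.univ.filter fun e => s e = Finset.univ) : Set E) := by
  ext e
  simp only [both, Set.mem_ofPred_eq, Finset.mem_coe, Finset.mem_sigma, Finset.mem_univ, true_and,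
    Finset.mem_filter]
  constructor
  · rintro ⟨h1, h2⟩
    ext b
    cases b <;> simp [h1, h2]
  · intro h
    rw [h]
    simp

private theorem card_nohalf {E : Type} [Fintype E] (s : E → Finset Bool) :
    (-1 : ℂ) ^ Nat.card (nohalf (↑((Finset.univ : Finset E).sigma s) : Set (Σ _ : E, Bool))) =
      ∏ e, (if s e = ∅ then (-1 : ℂ) else 1) := by
  have h : nohalf (↑((Finset.univ : Finset E).sigma s) : Set (Σ _ : E, Bool)) =
      (↑(Finset.univ.filter fun e => s e = ∅) : Set E) := by
    ext e
    simp only [nohalf, Set.mem_ofPred_eq, Finset.mem_coe, Finset.mem_sigma, Finset.mem_univ,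
      true_and, Finset.mem_filter]
    constructor
    · rintro ⟨h1, h2⟩
      ext b
      cases b <;> simp [h1, h2]
    · intro h
      rw [h]
      simp
  rw [h, Finset.prod_ite]
  simp

private theorem prod_split {E : Type} [Fintype E] (w : E → ℂ) (hw : ∀ e, 2 * w e - 1 ≠ 0)
    (H : Finset E) :
    (∏ e ∈ H, w e ^ 2) * (∏ e ∈ Hᶜ, (2 * w e - 1)) =
      (∏ e, (2 * w e - 1)) * ∏ e ∈ H, (w e ^ 2 / (2 * w e - 1)) := by
  rw [← Finset.prod_mul_prod_compl H (fun e => 2 * w e - 1), mul_right_comm,
    ← Finset.prod_mul_distrib]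
  congr 1
  exact Finset.prod_congr rfl fun e _ => (mul_div_cancel₀ (w e ^ 2) (hw e)).symm

theorem Z_subdiv {V E : Type} [Finite V] [Fintype E] (G : MG V E) (w : E → ℂ)
    (hw : ∀ e, 2 * w e - 1 ≠ 0) :
    G.subdiv.Z (fun x => w x.1) = (∏ e, (2 * w e - 1)) * G.Z (fun e => w e ^ 2 / (2 * w e - 1)) := by
  have h1 : G.subdiv.Z (fun x => w x.1) = ∑ s : (∀ _ : E, Finset Bool),
      (-1 : ℂ) ^ G.cc (↑(Finset.univ.filter fun e => s e = Finset.univ) : Set E) *
        ∏ e, ((if s e = ∅ then (-1 : ℂ) else 1) * w e ^ (s e).card) := by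
    unfold MG.Z
    rw [sum_sigma (X := fun _ : E => Bool)]
    refine Finset.sum_congr rfl fun s _ => ?_
    rw [cc_subdiv, both_sigma, pow_add, card_nohalf, prod_sigma', Finset.prod_mul_distrib, mul_assoc]
  rw [h1]
  have h2 := grouping (E := E) (X := fun _ => Finset Bool) (fun _ x => x = Finset.univ)
    (fun H => (-1 : ℂ) ^ G.cc (H : Set E))
    (fun e x => (if x = ∅ then (-1 : ℂ) else 1) * w e ^ x.card)
  have hA : ∀ e, (∑ x : Finset Bool, if x = Finset.univ then
      ((if x = ∅ then (-1 : ℂ) else 1) * w e ^ x.card) else 0) = w e ^ 2 := by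
    intro e
    rw [Finset.sum_ite_eq']
    simp
  have hB : ∀ e, (∑ x : Finset Bool, if x = Finset.univ then 0 else
      ((if x = ∅ then (-1 : ℂ) else 1) * w e ^ x.card)) = 2 * w e - 1 := by
    intro e
    have h3 : (Finset.univ : Finset (Finset Bool)) = {∅, {false}, {true}, Finset.univ} := by decide
    have n1 : (∅ : Finset Bool) ≠ Finset.univ := by decide
    have n2 : ({false} : Finset Bool) ≠ Finset.univ := by decide
    have n3 : ({true} : Finset Bool) ≠ Finset.univ := by decide
    rw [h3, Finset.sum_insert (by decide), Finset.sum_insert (by decide),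
      Finset.sum_insert (by decide), Finset.sum_singleton, if_neg n1, if_neg n2, if_neg n3,
      if_pos rfl, if_pos rfl, if_neg (by decide), if_neg (by decide)]
    simp
    ring
  refine (Eq.trans ?_ h2).trans ?_
  · exact Finset.sum_congr rfl fun s _ => by convert rfl
  · have hA' : ∀ e, (∑ x : Finset Bool, @ite ℂ (x = Finset.univ) (Classical.propDecidable _)
        ((if x = ∅ then (-1 : ℂ) else 1) * w e ^ x.card) 0) = w e ^ 2 := by
      intro e
      rw [← hA e]
      exact Finset.sum_congr rfl fun x _ => by congr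
    have hB' : ∀ e, (∑ x : Finset Bool, @ite ℂ (x = Finset.univ) (Classical.propDecidable _) 0
        ((if x = ∅ then (-1 : ℂ) else 1) * w e ^ x.card)) = 2 * w e - 1 := by
      intro e
      rw [← hB e]
      exact Finset.sum_congr rfl fun x _ => by congr
    simp only [hA', hB']
    unfold MG.Z
    rw [Finset.mul_sum]
    refine Finset.sum_congr rfl fun H _ => ?_
    rw [prod_split w hw H]
    ring

end Pool.RRC
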