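import Pool.Agent.RRC.BUN
import Pool.Agent.RRC.SUBZ
import Pool.Agent.RRC.K2

/-!
# TH (80 lines). Zeros of `Z` for generalized theta graphs.

Proof. `m` parallel edges: `Z_bundle` and `K2_Z` give `Z(K2.bundle m; y) = 2 - (1 + y) ^ m`, zero iff
`(1 + y) ^ m = 2`. Uniform weights `y = t / (t - 1)` with `‖t‖ < 1`: `2 y - 1 = (t + 1) / (t - 1) ≠ 0` and
`y² / (2 y - 1) = t² / (t² - 1)`, so by `Z_subdiv`, `Z(G.subdiv; t/(t-1)) = 0` if
`Z(G; t²/(t²-1)) = 0`. Induction on `i` gives, for every `i` and `m`, a loopless multigraph `G` with finite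
nonempty `V` such that for all `t` with `‖t‖ < 1` and `(1 + t^(2^i)/(t^(2^i) - 1)) ^ m = 2`:
`G.Z (fun _ => t / (t - 1)) = 0`. (In the induction generalise over `t`; the vertex and edge types
change with `i`, so the statement is existential.) `subdiv` and `bundle` are loopless.
-/

namespace Pool.RRC

open Classical

theorem theta (i m : ℕ) :
    ∃ (V E : Type) (_ : Fintype V) (_ : Fintype E) (_ : Nonempty V) (G : MG V E),
      (∀ e, G.src e ≠ G.tgt e) ∧
      ∀ t : ℂ, ‖t‖ < 1 → (1 + t ^ (2 ^ i) / (t ^ (2 ^ i) - 1)) ^ m = 2 →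
        G.Z (fun _ => t / (t - 1)) = 0 := by
  induction i with
  | zero =>
    refine ⟨Bool, (Σ _ : Unit, Fin m), inferInstance, inferInstance, inferInstance,
      K2.bundle (fun _ => m), ?_, ?_⟩
    · intro e
      simp [MG.bundle, K2]
    · intro t _ h
      rw [pow_zero, pow_one] at h
      have h1 := Z_bundle K2 (fun _ => m) (fun _ => t / (t - 1))
      rw [K2_Z] at h1
      refine h1.trans ?_
      rw [h]
      ring
  | succ i ih =>
    obtain ⟨V, E, hV, hE, hn, G, hl, hz⟩ := ih
    refine ⟨V ⊕ E, (Σ _ : E, Bool), inferInstance, inferInstance, inferInstance, G.subdiv, ?_, ?_⟩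
    · intro e
      simp [MG.subdiv]
    · intro t ht h
      have h1 : t - 1 ≠ 0 := by
        intro h0
        rw [sub_eq_zero.mp h0, norm_one] at ht
        exact lt_irrefl _ ht
      have h2 : t + 1 ≠ 0 := by
        intro h0
        rw [eq_neg_of_add_eq_zero_left h0, norm_neg, norm_one] at ht
        exact lt_irrefl _ ht
      have h3 : t ^ 2 - 1 ≠ 0 := by
        have : t ^ 2 - 1 = (t - 1) * (t + 1) := by ring
        rw [this]
        exact mul_ne_zero h1 h2
      have h4 : 2 * (t / (t - 1)) - 1 = (t + 1) / (t - 1) := by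
        field_simp
        ring
      have h5 : (t / (t - 1)) ^ 2 / (2 * (t / (t - 1)) - 1) = t ^ 2 / (t ^ 2 - 1) := by
        rw [h4]
        have : t ^ 2 - 1 = (t - 1) * (t + 1) := by ring
        rw [this]
        field_simp
      have h6 := Z_subdiv G (fun _ => t / (t - 1)) (fun _ => by
        rw [h4]
        exact div_ne_zero h2 h1)
      refine h6.trans ?_
      have h7 := hz (t ^ 2) (by
        rw [norm_pow]
        exact pow_lt_one₀ (norm_nonneg _) ht (by norm_num)) (by
        rw [← pow_mul, ← pow_succ' 2 i]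
        exact h)
      simp only [h5]
      rw [h7, mul_zero]

end Pool.RRC
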