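import Pool.Agent.RRC.Defs

/-!
# TX (90 lines). Pure analysis: small solutions `t` of `(1 + t^(2^i)/(t^(2^i) - 1))^m = 2`, with
`v = -log (1 + t/(t-1))` of small argument.

Proof. Put `L = 2^i`, `w = 2^(1/m) > 1` (real power), `δ = (w - 1) / (2 - w) > 0` (`m ≥ 2`), `δ → 0` for
`m → ∞`. Put `t = x * exp (π I / L)` with `x = δ^(1/L)`: `t^L = -δ`, so
`1 + t^L/(t^L - 1) = 1 + δ/(1 + δ) = (1 + 2δ)/(1 + δ) = w`, whose `m`-th power is `2`.
Now `v = -log (1 + t/(t-1)) = t (1 + o(1))` for `t → 0` (derivative of `t ↦ -Complex.log (1 + t/(t-1))` at `0`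
is `1`; `HasDerivAt`, `isLittleO`): for `x` small `‖v - t‖ ≤ (θ/8) x`. Choose `L` with `π / L ≤ θ / 4`
and `π / L ≤ 1/2`, so that `Im t ≤ x π / L ≤ (θ/4) x`, `Re t ≥ x (1 - (π/L)²/2) ≥ 7x/8`. With `θ ≤ 1`
(w.l.o.g.): `Re v ≥ 7x/8 - x/8 > 0`, `|Im v| ≤ (θ/4 + θ/8) x ≤ θ Re v`. Finally `exp (-v) = 1 + t/(t-1)`
(`Complex.exp_log`, the argument is not `0` for small `t`) and `‖t‖ = x < 1`.
-/

namespace Pool.RRC

open Classical Filter Topology

private theorem tx_log (ε : ℝ) (hε : 0 < ε) :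
    ∀ᶠ t : ℂ in 𝓝 0, ‖-Complex.log (1 + t / (t - 1)) - t‖ ≤ ε * ‖t‖ := by
  have h1 : HasDerivAt (fun t : ℂ => 1 + t / (t - 1)) (-1) 0 := by
    have := ((hasDerivAt_id (0 : ℂ)).div ((hasDerivAt_id (0 : ℂ)).sub_const 1)
      (by simp)).const_add 1
    refine this.congr_deriv ?_
    simp
  have h2 : HasDerivAt (fun t : ℂ => -Complex.log (1 + t / (t - 1))) 1 0 := by
    have := (h1.clog (by simp)).neg
    refine this.congr_deriv ?_
    simp
  have h3 := (hasDerivAt_iff_isLittleO.1 h2).def hε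
  filter_upwards [h3] with t ht
  simpa using ht

theorem small_arg (θ : ℝ) (hθ : 0 < θ) :
    ∃ (i m : ℕ) (t v : ℂ), ‖t‖ < 1 ∧ (1 + t ^ (2 ^ i) / (t ^ (2 ^ i) - 1)) ^ m = 2 ∧
      Complex.exp (-v) = 1 + t / (t - 1) ∧ 0 < v.re ∧ |v.im| ≤ θ * v.re := by
  obtain ⟨θ', hθ0, hθ1, hθ2⟩ : ∃ θ' : ℝ, 0 < θ' ∧ θ' ≤ 1 ∧ θ' ≤ θ :=
    ⟨min θ 1, lt_min hθ one_pos, min_le_right _ _, min_le_left _ _⟩
  obtain ⟨i, hi⟩ : ∃ i : ℕ, 4 * Real.pi / θ' < 2 ^ i := pow_unbounded_of_one_lt _ one_lt_two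
  obtain ⟨L, hL⟩ : ∃ L : ℕ, L = 2 ^ i := ⟨_, rfl⟩
  have hLr : (L : ℝ) = 2 ^ i := by rw [hL]; push_cast; rfl
  have hL0 : (0 : ℝ) < L := by rw [hLr]; positivity
  have hLne : L ≠ 0 := by rw [hL]; positivity
  obtain ⟨a, ha⟩ : ∃ a : ℝ, a = Real.pi / L := ⟨_, rfl⟩
  have ha0 : 0 < a := by rw [ha]; exact div_pos Real.pi_pos hL0
  have ha1 : a ≤ θ' / 4 := by
    rw [ha, div_le_div_iff₀ hL0 (by norm_num)]
    rw [div_lt_iff₀ hθ0, ← hLr] at hi
    nlinarith
  obtain ⟨ζ, hζ⟩ : ∃ ζ : ℂ, ζ = Complex.exp (a * Complex.I) := ⟨_, rfl⟩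
  have hζL : ζ ^ L = -1 := by
    rw [hζ, ← Complex.exp_nat_mul, ha]
    rw [← Complex.exp_pi_mul_I]
    congr 1
    push_cast
    have : (L : ℂ) ≠ 0 := by exact_mod_cast hLne
    field_simp
  have hζn : ‖ζ‖ = 1 := by rw [hζ]; exact Complex.norm_exp_ofReal_mul_I a
  have hre : 7 / 8 ≤ ζ.re := by
    rw [hζ, Complex.exp_ofReal_mul_I_re]
    have := Real.one_sub_sq_div_two_le_cos (x := a)
    nlinarith
  have him : |ζ.im| ≤ θ' / 4 := by
    rw [hζ, Complex.exp_ofReal_mul_I_im]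
    exact (Real.abs_sin_le_abs).trans (by rwa [abs_of_pos ha0])
  -- the sequences
  set w : ℕ → ℝ := fun k => (2 : ℝ) ^ (((k + 1 : ℕ) : ℝ)⁻¹) with hw
  have hwpow : ∀ k, w k ^ (k + 1) = 2 := fun k =>
    Real.rpow_inv_natCast_pow (by norm_num) (by omega)
  have hw1 : ∀ k, 1 < w k := fun k =>
    Real.one_lt_rpow (by norm_num) (by positivity)
  have hwlim : Tendsto w atTop (𝓝 1) := by
    have h1 : Tendsto (fun k : ℕ => (((k + 1 : ℕ) : ℝ)⁻¹)) atTop (𝓝 0) :=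
      tendsto_inv_atTop_zero.comp (tendsto_natCast_atTop_atTop.comp (tendsto_add_atTop_nat 1))
    have h2 : ContinuousAt (fun x : ℝ => (2 : ℝ) ^ x) 0 :=
      Real.continuousAt_const_rpow (by norm_num)
    have h3 := h2.tendsto.comp h1
    rw [Real.rpow_zero] at h3
    exact h3
  set d : ℕ → ℝ := fun k => (w k - 1) / (2 - w k) with hd
  have hdlim : Tendsto d atTop (𝓝 0) := by
    have h1 : Tendsto (fun k => (w k - 1) / (2 - w k)) atTop (𝓝 ((1 - 1) / (2 - 1))) :=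
      (hwlim.sub_const 1).div (tendsto_const_nhds.sub hwlim) (by norm_num)
    simpa using h1
  set x : ℕ → ℝ := fun k => (d k) ^ ((L : ℝ)⁻¹) with hx
  have hxlim : Tendsto x atTop (𝓝 0) := by
    have h1 : ContinuousAt (fun y : ℝ => y ^ ((L : ℝ)⁻¹)) 0 :=
      Real.continuousAt_rpow_const _ _ (Or.inr (by positivity))
    have h2 := h1.tendsto.comp hdlim
    rw [Real.zero_rpow (by positivity)] at h2
    exact h2
  have htlim : Tendsto (fun k => (x k : ℂ) * ζ) atTop (𝓝 0) := by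
    have h1 : Tendsto (fun k => (x k : ℂ)) atTop (𝓝 ((0 : ℝ) : ℂ)) :=
      (Complex.continuous_ofReal.tendsto 0).comp hxlim
    have := h1.mul_const ζ
    simpa using this
  have hne1 : ∀ᶠ t : ℂ in 𝓝 0, 1 + t / (t - 1) ≠ 0 := by
    have hc : ContinuousAt (fun t : ℂ => 1 + t / (t - 1)) 0 :=
      continuousAt_const.add (continuousAt_id.div (continuousAt_id.sub continuousAt_const) (by simp))
    exact hc.eventually_ne (by simp)
  have hnorm : ∀ᶠ t : ℂ in 𝓝 0, ‖t‖ < 1 := by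
    have := Metric.ball_mem_nhds (0 : ℂ) one_pos
    filter_upwards [this] with t ht
    simpa using ht
  have hev := htlim.eventually (((tx_log (θ' / 8) (by positivity)).and hne1).and hnorm)
  have hev2 : ∀ᶠ k in atTop, w k < 2 := hwlim.eventually (gt_mem_nhds (by norm_num))
  obtain ⟨k, ⟨⟨hk1, hk2⟩, hk3⟩, hk4⟩ := (hev.and hev2).exists
  have hdk : 0 < d k := div_pos (by linarith [hw1 k]) (by linarith)
  have hxk : 0 < x k := Real.rpow_pos_of_pos hdk _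
  have hxL : x k ^ L = d k := Real.rpow_inv_natCast_pow hdk.le hLne
  set t : ℂ := (x k : ℂ) * ζ with ht
  have htL : t ^ L = -(d k : ℂ) := by
    rw [ht, mul_pow, hζL, ← hxL]; push_cast; ring
  have hnt : ‖t‖ = x k := by
    rw [ht, norm_mul, hζn, Complex.norm_real, Real.norm_of_nonneg hxk.le, mul_one]
  refine ⟨i, k + 1, t, -Complex.log (1 + t / (t - 1)), hk3, ?_, ?_, ?_⟩
  · rw [← hL, htL]
    have h1 : (1 + -(d k : ℂ) / (-(d k : ℂ) - 1)) = (w k : ℂ) := by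
      have h2 : (2 - (w k : ℂ)) ≠ 0 := by
        have : (2 - w k) ≠ 0 := by linarith
        exact_mod_cast this
      have h3 : (d k : ℂ) = ((w k : ℂ) - 1) / (2 - (w k : ℂ)) := by
        rw [hd]; push_cast; rfl
      have h4 : -(d k : ℂ) - 1 ≠ 0 := by
        have : -(d k) - 1 ≠ 0 := by linarith
        exact_mod_cast this
      have h5 : (d k : ℂ) * (2 - (w k : ℂ)) = (w k : ℂ) - 1 := by
        rw [h3]; field_simp
      field_simp
      linear_combination -h5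
    rw [h1]
    exact_mod_cast hwpow k
  · rw [neg_neg, Complex.exp_log hk2]
  · rw [hnt] at hk1
    set v : ℂ := -Complex.log (1 + t / (t - 1)) with hv
    have hr1 : |(v - t).re| ≤ θ' / 8 * x k := (Complex.abs_re_le_norm _).trans hk1
    have hi1 : |(v - t).im| ≤ θ' / 8 * x k := (Complex.abs_im_le_norm _).trans hk1
    have htre : t.re = x k * ζ.re := by rw [ht]; simp
    have htim : t.im = x k * ζ.im := by rw [ht]; simp
    rw [Complex.sub_re, htre] at hr1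
    rw [Complex.sub_im, htim] at hi1
    have h1 : x k * (7 / 8) ≤ x k * ζ.re := mul_le_mul_of_nonneg_left hre hxk.le
    have h2 : |x k * ζ.im| ≤ x k * (θ' / 4) := by
      rw [abs_mul, abs_of_pos hxk]
      exact mul_le_mul_of_nonneg_left him hxk.le
    have h3 : θ' / 8 * x k ≤ x k / 8 := by nlinarith
    have h4 := (abs_le.1 hr1).1
    have hvre : x k * (3 / 4) ≤ v.re := by linarith
    refine ⟨by linarith [mul_pos hxk (by norm_num : (0 : ℝ) < 3 / 4)], ?_⟩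
    have h5 : |v.im| ≤ x k * (θ' * (3 / 8)) := by
      have h6 : v.im = (v.im - x k * ζ.im) + x k * ζ.im := by ring
      calc |v.im| = |(v.im - x k * ζ.im) + x k * ζ.im| := by rw [← h6]
        _ ≤ |v.im - x k * ζ.im| + |x k * ζ.im| := abs_add_le _ _
        _ ≤ θ' / 8 * x k + x k * (θ' / 4) := add_le_add hi1 h2
        _ = x k * (θ' * (3 / 8)) := by ring
    calc |v.im| ≤ x k * (θ' * (3 / 8)) := h5
      _ ≤ θ' * (x k * (3 / 4)) := by nlinarith [mul_pos hxk hθ0]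
      _ ≤ θ' * v.re := mul_le_mul_of_nonneg_left hvre hθ0.le
      _ ≤ θ * v.re := by
          apply mul_le_mul_of_nonneg_right hθ2
          linarith [mul_pos hxk (by norm_num : (0 : ℝ) < 3 / 4)]

end Pool.RRC
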