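import Pool.Agent.RRC.BUN
import Pool.Agent.RRC.SUBR
import Pool.Agent.RRC.K2

/-!
# UCL (60 lines). Closure properties of `U`.
-/

namespace Pool.RRC

open Classical

theorem U_pow (u : ℂ) (k : ℕ) (hk : 1 ≤ k) (h : u ^ k ∈ U) : u ∈ U := by
  obtain ⟨V, E, _, _, _, G, hl, hc, hR⟩ := h
  refine ⟨V, Σ _ : E, Fin k, inferInstance, inferInstance, inferInstance, G.bundle (fun _ => k),
    fun e => hl e.1, (bundle_conn_univ G _ (fun _ => hk)).2 hc, ?_⟩
  have h1 := R_bundle G (fun _ => k) (fun _ => u - 1)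
  rw [h1]
  rw [← hR]
  congr 1
  funext e
  ring

theorem U_half (u : ℂ) (h : (1 + u) / 2 ∈ U) : u ∈ U := by
  obtain ⟨V, E, _, _, _, G, hl, hc, hR⟩ := h
  refine ⟨V ⊕ E, Σ _ : E, Bool, inferInstance, inferInstance, inferInstance, G.subdiv,
    fun e => by simp [MG.subdiv], subdiv_conn_univ G hc, ?_⟩
  have h1 := R_subdiv G (fun _ => u - 1)
  rw [h1]
  have h2 : (fun _ : E => (u - 1) / 2) = (fun _ : E => (1 + u) / 2 - 1) := by
    funext e
    ring
  rw [h2, hR, mul_zero]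

theorem U_dyadic (u : ℂ) (j : ℕ) (h : 1 - (1 - u) / 2 ^ j ∈ U) : u ∈ U := by
  induction j with
  | zero => simpa using h
  | succ j ih =>
    apply ih
    apply U_half
    have h1 : (1 + (1 - (1 - u) / 2 ^ j)) / 2 = 1 - (1 - u) / 2 ^ (j + 1) := by
      rw [pow_succ]
      field_simp
      ring
    rw [h1]
    exact h

theorem U_neg_one : (-1 : ℂ) ∈ U := by
  refine ⟨Bool, Σ _ : Unit, Fin 2, inferInstance, inferInstance, inferInstance,
    K2.bundle (fun _ => 2), fun e => by simp [MG.bundle, K2],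
    (bundle_conn_univ K2 _ (fun _ => by norm_num)).2 K2_conn, ?_⟩
  have h1 := R_bundle K2 (fun _ => 2) (fun _ => (-1 : ℂ) - 1)
  rw [h1, K2_R]
  norm_num

theorem U_one_sub (j : ℕ) : (1 - 2 ^ (j + 1) : ℂ) ∈ U := by
  apply U_dyadic _ j
  have h1 : (1 - (1 - (1 - 2 ^ (j + 1) : ℂ)) / 2 ^ j) = -1 := by
    have h2 : (2 : ℂ) ^ j ≠ 0 := pow_ne_zero _ (by norm_num)
    rw [pow_succ]
    field_simp
    ring
  rw [h1]
  exact U_neg_one

end Pool.RRC
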